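import Mathlib

/-!
# Multiples of a primitive Pythagorean triple: the order of the exponents

Let `(a, b, c)` be a primitive Pythagorean triple and `k ≥ 2`. A solution of
`(k a) ^ x + (k b) ^ y = (k c) ^ z` other than `(2, 2, 2)` has `x < z < y` or `y < z < x`.
-/

set_option autoImplicit false

namespace Pool.Agent.R480.Jes

/-- the facts on a primitive Pythagorean triple `(a, b, c)` with even `b` -/
structure PT (a b c : ℕ) : Prop where
  hab : Nat.Coprime a b
  hac : Nat.Coprime a c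
  hbc : Nat.Coprime b c
  pyth : a ^ 2 + b ^ 2 = c ^ 2
  a3 : 3 ≤ a
  b0 : 0 < b
  b4 : 4 ∣ b
  aodd : ¬ 2 ∣ a
  codd : ¬ 2 ∣ c
  ca : c < a ^ 2

lemma PT.b4' {a b c : ℕ} (h : PT a b c) : 4 ≤ b := Nat.le_of_dvd h.b0 h.b4

lemma PT.a_lt {a b c : ℕ} (h : PT a b c) : a < c := by
  have h1 := h.pyth
  have h2 := h.b0
  by_contra hc
  push Not at hc
  have h3 : c ^ 2 ≤ a ^ 2 := Nat.pow_le_pow_left hc 2
  have h4 : 0 < b ^ 2 := by positivity
  omega

lemma PT.b_lt {a b c : ℕ} (h : PT a b c) : b < c := by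
  have h1 := h.pyth
  have h2 := h.a3
  by_contra hc
  push Not at hc
  have h3 : c ^ 2 ≤ b ^ 2 := Nat.pow_le_pow_left hc 2
  have h4 : 0 < a ^ 2 := by positivity
  omega

/-- a solution with `z ≥ max (x, y)` is `(2, 2, 2)` -/
lemma size {A B C x y z : ℕ} (hA : 2 ≤ A) (hB : 2 ≤ B) (h2 : A ^ 2 + B ^ 2 = C ^ 2) (hx : 0 < x)
    (hy : 0 < y) (hz : 0 < z) (hxz : x ≤ z) (hyz : y ≤ z) (h : A ^ x + B ^ y = C ^ z) :
    x = 2 ∧ y = 2 ∧ z = 2 := by
  have hAC : A < C := by
    by_contra hc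
    push Not at hc
    have h3 : C ^ 2 ≤ A ^ 2 := Nat.pow_le_pow_left hc 2
    have h4 : 0 < B ^ 2 := by positivity
    omega
  have hBC : B < C := by
    by_contra hc
    push Not at hc
    have h3 : C ^ 2 ≤ B ^ 2 := Nat.pow_le_pow_left hc 2
    have h4 : 0 < A ^ 2 := by positivity
    omega
  rcases Nat.lt_or_ge z 2 with hz2 | hz2
  · exfalso
    have e1 : x = 1 := by omega
    have e2 : y = 1 := by omega
    have e3 : z = 1 := by omega
    subst e1 e2 e3
    simp only [pow_one] at h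
    subst h
    nlinarith
  · obtain ⟨w, rfl⟩ : ∃ w, z = w + 2 := ⟨z - 2, by omega⟩
    have hC1 : 1 ≤ C ^ w := Nat.one_le_pow _ _ (by omega)
    have key : ∀ {D u : ℕ}, 2 ≤ D → D < C → 0 < u → u ≤ w + 2 →
        D ^ u ≤ D ^ 2 * C ^ w ∧ (0 < w → D ^ u < D ^ 2 * C ^ w) := by
      intro D u hD hDC hu huw
      have hD2 : 0 < D ^ 2 := by positivity
      rcases Nat.lt_or_ge 2 u with h5 | h5
      · obtain ⟨v, rfl⟩ : ∃ v, u = v + 2 := ⟨u - 2, by omega⟩
        have hvw : v ≤ w := by omega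
        have hv0 : v ≠ 0 := by omega
        have e1 : D ^ v < C ^ v := Nat.pow_lt_pow_left hDC hv0
        have e2 : C ^ v ≤ C ^ w := Nat.pow_le_pow_right (by omega) hvw
        have e3 : D ^ (v + 2) = D ^ 2 * D ^ v := by ring
        rw [e3]
        exact ⟨Nat.mul_le_mul_left _ (e1.le.trans e2),
          fun _ => Nat.mul_lt_mul_of_pos_left (e1.trans_le e2) hD2⟩
      · have e1 : D ^ u ≤ D ^ 2 := Nat.pow_le_pow_right (by omega) h5
        refine ⟨e1.trans (Nat.le_mul_of_pos_right _ (by omega)), fun hw => ?_⟩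
        have e2 : 1 < C ^ w := Nat.one_lt_pow (by omega) (by omega)
        exact lt_of_le_of_lt e1 (by nlinarith)
    obtain ⟨a1, a2⟩ := key hA hAC hx hxz
    obtain ⟨b1, b2⟩ := key hB hBC hy hyz
    have hsum : C ^ (w + 2) = A ^ 2 * C ^ w + B ^ 2 * C ^ w := by
      rw [← add_mul, h2, ← pow_add, add_comm]
    rw [hsum] at h
    rcases Nat.eq_zero_or_pos w with hw | hw
    · subst hw
      simp only [pow_zero, mul_one] at a1 b1 h
      have e1 : A ^ x = A ^ 2 := by omega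
      have e2 : B ^ y = B ^ 2 := by omega
      exact ⟨Nat.pow_right_injective hA e1, Nat.pow_right_injective hB e2, rfl⟩
    · have := a2 hw
      have := b2 hw
      omega

/-- the case `x = y` -/
lemma no_eq {a b c k x z : ℕ} (h : PT a b c) (hz : 0 < z) (hzx : z < x)
    (heq : k ^ (x - z) * (a ^ x + b ^ x) = c ^ z) : False := by
  have ha3 := h.a3
  have hb4 := h.b4'
  have hac := h.a_lt
  have hdc : a ^ x + b ^ x ∣ c ^ z := ⟨k ^ (x - z), by rw [← heq]; ring⟩
  have hk1 : 1 ≤ k ^ (x - z) := by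
    rcases Nat.eq_zero_or_pos (k ^ (x - z)) with h0 | h0
    · rw [h0, zero_mul] at heq
      have : 0 < c ^ z := Nat.pow_pos (by omega)
      omega
    · exact h0
  have hk0 : 0 < k := Nat.pos_of_ne_zero (fun h0 => by
    rw [h0, zero_pow (by omega)] at hk1
    omega)
  -- a prime factor of `a ^ x + b ^ x`
  have hprime : ∀ p : ℕ, p.Prime → p ∣ a ^ x + b ^ x → p ∣ c ∧ ¬ p ∣ a ∧ ¬ p ∣ b ∧ p ≠ 2 := by
    intro p hp hpd
    have h1 : p ∣ c := hp.dvd_of_dvd_pow (hpd.trans hdc)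
    refine ⟨h1, ?_, ?_, ?_⟩
    · intro h2
      exact hp.one_lt.ne' (Nat.eq_one_of_dvd_coprimes h.hac h2 h1)
    · intro h2
      exact hp.one_lt.ne' (Nat.eq_one_of_dvd_coprimes h.hbc h2 h1)
    · rintro rfl
      exact h.codd h1
  have hn2 : 2 ≤ a ^ x + b ^ x := by
    have h1 : 0 < a ^ x := Nat.pow_pos (by omega)
    have h2 : 0 < b ^ x := Nat.pow_pos (by omega)
    omega
  -- the relations modulo such a prime
  have hmod : ∀ p : ℕ, p.Prime → p ∣ a ^ x + b ^ x → ∃ w, x = 2 * w ∧ Odd w := by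
    intro p hp hpd
    obtain ⟨h1, h2, h3, h4⟩ := hprime p hp hpd
    have : Fact p.Prime := ⟨hp⟩
    have e1 : (a : ZMod p) ^ x = -(b : ZMod p) ^ x := by
      have e := (ZMod.natCast_eq_zero_iff _ _).2 hpd
      push_cast at e
      linear_combination e
    have e2 : (a : ZMod p) ^ 2 = -(b : ZMod p) ^ 2 := by
      have e := (ZMod.natCast_eq_zero_iff _ _).2 h1
      have e' : ((a ^ 2 + b ^ 2 : ℕ) : ZMod p) = ((c ^ 2 : ℕ) : ZMod p) := by rw [h.pyth]
      push_cast at e'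
      rw [e] at e'
      linear_combination e'
    have hb : (b : ZMod p) ≠ 0 := by rwa [Ne, ZMod.natCast_eq_zero_iff]
    have h2' : (2 : ZMod p) ≠ 0 := by
      intro h5
      have h6 : ((2 : ℕ) : ZMod p) = 0 := by exact_mod_cast h5
      rw [ZMod.natCast_eq_zero_iff] at h6
      exact h4 ((Nat.prime_dvd_prime_iff_eq hp Nat.prime_two).1 h6)
    rcases Nat.even_or_odd x with hx | hx
    · obtain ⟨w, hw⟩ := hx
      have hw' : x = 2 * w := by omega
      refine ⟨w, hw', ?_⟩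
      by_contra hodd
      rw [Nat.not_odd_iff_even] at hodd
      have e3 : (a : ZMod p) ^ x = (b : ZMod p) ^ x := by
        rw [hw', pow_mul, pow_mul, e2, hodd.neg_pow]
      have e4 : 2 * (b : ZMod p) ^ x = 0 := by linear_combination e1 - e3
      rcases mul_eq_zero.1 e4 with h5 | h5
      · exact h2' h5
      · exact hb ((pow_eq_zero_iff (by omega)).1 h5)
    · exfalso
      have e3 : ((a : ZMod p) ^ 2) ^ x = ((b : ZMod p) ^ 2) ^ x := by
        rw [← pow_mul, ← pow_mul, mul_comm 2 x, pow_mul, pow_mul, e1]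
        ring
      rw [e2, hx.neg_pow] at e3
      have e4 : 2 * ((b : ZMod p) ^ 2) ^ x = 0 := by linear_combination -e3
      rcases mul_eq_zero.1 e4 with h5 | h5
      · exact h2' h5
      · exact hb ((pow_eq_zero_iff (two_ne_zero)).1 ((pow_eq_zero_iff (by omega)).1 h5))
  obtain ⟨w, hxw, hwodd⟩ := hmod _ (Nat.minFac_prime (by omega : a ^ x + b ^ x ≠ 1))
    (Nat.minFac_dvd _)
  have hw0 : 0 < w := hwodd.pos
  have hc0 : 0 < c := by omega
  have hdvd : a ^ x + b ^ x ∣ c ^ 2 * w := by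
    rw [← Nat.factorization_prime_le_iff_dvd (by omega) (by positivity)]
    intro p hp
    have : Fact p.Prime := ⟨hp⟩
    by_cases hpd : p ∣ a ^ x + b ^ x
    · obtain ⟨h1, h2, h3, h4⟩ := hprime p hp hpd
      have e1 : padicValNat p ((a ^ 2) ^ w + (b ^ 2) ^ w) =
          padicValNat p (a ^ 2 + b ^ 2) + padicValNat p w :=
        padicValNat.pow_add_pow (hp.odd_of_ne_two h4) (by rw [h.pyth]; exact dvd_pow h1 (by norm_num))
          (fun h5 => h2 (hp.dvd_of_dvd_pow h5)) hwodd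
      rw [← pow_mul, ← pow_mul, ← hxw, h.pyth] at e1
      rw [Nat.factorization_mul (by positivity) (by omega), Finsupp.add_apply,
        Nat.factorization_def _ hp, Nat.factorization_def _ hp, Nat.factorization_def _ hp, e1]
    · rw [Nat.factorization_eq_zero_of_not_dvd hpd]
      exact Nat.zero_le _
  have hle : a ^ x + b ^ x ≤ c ^ 2 * w := Nat.le_of_dvd (by positivity) hdvd
  rcases Nat.lt_or_ge w 2 with hw2 | hw2
  · have hw1 : w = 1 := by omega
    have hx2 : x = 2 := by omega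
    have hz1 : z = 1 := by omega
    rw [hx2, hz1, h.pyth] at heq
    simp only [Nat.reduceSub, pow_one] at heq
    have : c ^ 2 ≤ c := by
      calc c ^ 2 ≤ k * c ^ 2 := Nat.le_mul_of_pos_left _ hk0
        _ = c := heq
    nlinarith
  · obtain ⟨m, hm⟩ : ∃ m, m = max (a ^ 2) (b ^ 2) := ⟨_, rfl⟩
    have hm1 : a ^ 2 ≤ m := by rw [hm]; exact le_max_left _ _
    have hm2 : b ^ 2 ≤ m := by rw [hm]; exact le_max_right _ _
    have hm16 : 16 ≤ m := by nlinarith
    have hmw : m ^ w ≤ a ^ x + b ^ x := by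
      rw [hxw, pow_mul, pow_mul, hm]
      rcases max_cases (a ^ 2) (b ^ 2) with ⟨e, -⟩ | ⟨e, -⟩ <;> rw [e] <;> omega
    have hc2 : c ^ 2 ≤ 2 * m := by have := h.pyth; omega
    obtain ⟨v, rfl⟩ : ∃ v, w = v + 1 := ⟨w - 1, by omega⟩
    have e1 : m ^ v * m ≤ (2 * (v + 1)) * m := by
      calc m ^ v * m = m ^ (v + 1) := by ring
        _ ≤ c ^ 2 * (v + 1) := hmw.trans hle
        _ ≤ (2 * m) * (v + 1) := Nat.mul_le_mul_right _ hc2
        _ = _ := by ring
    have e2 : m ^ v ≤ 2 * (v + 1) := Nat.le_of_mul_le_mul_right e1 (by omega)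
    have e3 : 16 ^ v ≤ m ^ v := Nat.pow_le_pow_left hm16 _
    have e4 : 1 + v * 15 ≤ 16 ^ v := by
      have := one_add_mul_le_pow (a := (15 : ℤ)) (by norm_num) v
      norm_num at this
      have h7 : ((1 + v * 15 : ℕ) : ℤ) ≤ ((16 ^ v : ℕ) : ℤ) := by push_cast; linarith
      exact_mod_cast h7
    omega

/-- the case `z < min (x, y)`, `x ≠ y` -/
lemma no_lt {a b c k x y z : ℕ} (hab : 2 ≤ a) (hbb : 2 ≤ b) (hac : Nat.Coprime a c)
    (hpy : a ^ 2 + b ^ 2 = c ^ 2) (hk : 2 ≤ k) (hz : 0 < z) (hzx : z < x) (hxy : x < y)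
    (heq : k ^ (x - z) * (a ^ x + k ^ (y - x) * b ^ y) = c ^ z) : False := by
  have hc0 : 0 < c := by
    rcases Nat.eq_zero_or_pos c with h | h
    · subst h
      simp at hac
      omega
    · exact h
  obtain ⟨W, hW⟩ : ∃ W, W = a ^ x + k ^ (y - x) * b ^ y := ⟨_, rfl⟩
  rw [← hW] at heq
  have hWa : a ^ x < W := by
    rw [hW]
    have : 0 < k ^ (y - x) * b ^ y := by positivity
    omega
  have hWb : b ^ y < W := by
    rw [hW]
    have h1 : 0 < a ^ x := by positivity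
    have h2 : b ^ y ≤ k ^ (y - x) * b ^ y := Nat.le_mul_of_pos_left _ (by positivity)
    omega
  have hcop : Nat.Coprime (k ^ (x - z)) W := by
    apply Nat.Coprime.pow_left
    apply Nat.Coprime.symm
    apply Nat.coprime_of_dvd
    intro p hp hpW hpk
    have h1 : p ∣ c := by
      apply hp.dvd_of_dvd_pow (n := z)
      rw [← heq]
      exact Dvd.dvd.mul_left hpW _
    have h2 : p ∣ k ^ (y - x) * b ^ y := Dvd.dvd.mul_right (dvd_pow hpk (by omega)) _
    have h3 : p ∣ a ^ x := by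
      rw [hW] at hpW
      exact (Nat.dvd_add_left h2).1 hpW
    exact hp.one_lt.ne' (Nat.eq_one_of_dvd_coprimes hac (hp.dvd_of_dvd_pow h3) h1)
  obtain ⟨c2, hc2⟩ : ∃ d, W = d ^ z := by
    obtain ⟨d, hd⟩ := exists_eq_pow_of_mul_eq_pow (a := W) (b := k ^ (x - z)) (c := c) (k := z)
      (by
        have h1 : GCDMonoid.gcd W (k ^ (x - z)) = 1 := hcop.symm
        rw [h1]
        exact isUnit_one) (by rw [mul_comm]; exact heq)
    exact ⟨d, hd⟩
  have hc2d : c2 ∣ c := by
    have : c2 ^ z ∣ c ^ z := by rw [← heq, ← hc2]; exact Dvd.intro_left _ rfl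
    exact (Nat.pow_dvd_pow_iff (by omega)).1 this
  have hac2 : a < c2 := by
    by_contra hcon
    push Not at hcon
    have h1 : c2 ^ z ≤ a ^ z := Nat.pow_le_pow_left hcon _
    have h2 : a ^ z ≤ a ^ x := Nat.pow_le_pow_right (by omega) (by omega)
    omega
  have hbc2 : b < c2 := by
    by_contra hcon
    push Not at hcon
    have h1 : c2 ^ z ≤ b ^ z := Nat.pow_le_pow_left hcon _
    have h2 : b ^ z ≤ b ^ y := Nat.pow_le_pow_right (by omega) (by omega)
    omega
  obtain ⟨c3, hc3⟩ := hc2d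
  rcases Nat.lt_or_ge c3 2 with h1 | h1
  · have h2 : c3 ≠ 0 := by rintro rfl; omega
    have h3 : c3 = 1 := by omega
    rw [h3, mul_one] at hc3
    rw [hc2, ← hc3] at heq
    have h4 : 0 < c ^ z := by positivity
    have h5 : k ^ (x - z) = 1 := by
      have : k ^ (x - z) * c ^ z = 1 * c ^ z := by rw [one_mul]; exact heq
      exact Nat.eq_of_mul_eq_mul_right h4 this
    rcases Nat.pow_eq_one.1 h5 with h6 | h6 <;> omega
  · have h2 : 2 * c2 ≤ c := by rw [hc3]; nlinarith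
    nlinarith

/-- the case `z = x < y` -/
lemma no_min1 {a b c k x y : ℕ} (h : PT a b c) (hx : 0 < x) (hxy : x < y)
    (heq : a ^ x + k ^ (y - x) * b ^ y = c ^ x) : False := by
  have hb4 := h.b4'
  have hac := h.a_lt
  have hdv : b ^ y ∣ c ^ x - a ^ x := ⟨k ^ (y - x), by rw [← heq]; ring_nf; omega⟩
  have hlt : a ^ x < c ^ x := Nat.pow_lt_pow_left hac (by omega)
  have hdv2 : b ^ y ∣ c ^ (2 * x) - a ^ (2 * x) := by
    refine hdv.trans ?_
    have := Nat.sub_dvd_pow_sub_pow (c ^ x) (a ^ x) 2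
    rwa [← pow_mul, ← pow_mul, mul_comm x 2] at this
  have hlt2 : a ^ (2 * x) < c ^ (2 * x) := Nat.pow_lt_pow_left hac (by omega)
  have : Fact (Nat.Prime 2) := ⟨Nat.prime_two⟩
  have e1 : padicValNat 2 (c ^ (2 * x) - a ^ (2 * x)) + 1 =
      padicValNat 2 (c + a) + padicValNat 2 (c - a) + padicValNat 2 (2 * x) := by
    refine padicValNat.pow_two_sub_pow hac ?_ h.codd (by omega) (even_two_mul x)
    have := h.codd
    have := h.aodd
    omega
  have e2 : padicValNat 2 (c + a) + padicValNat 2 (c - a) = 2 * padicValNat 2 b := by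
    rw [← padicValNat.mul (by omega) (by omega), ← padicValNat.pow b 2]
    congr 1
    have := h.pyth
    have h3 : (c + a) * (c - a) = c ^ 2 - a ^ 2 := (Nat.sq_sub_sq c a).symm
    rw [h3]
    omega
  have e3 : padicValNat 2 (2 * x) = 1 + padicValNat 2 x := by
    rw [padicValNat.mul (by omega) (by omega), padicValNat.self (by norm_num)]
  have e4 : y * padicValNat 2 b ≤ padicValNat 2 (c ^ (2 * x) - a ^ (2 * x)) := by
    have h5 := padicValNat_dvd_iff_le (p := 2) (a := c ^ (2 * x) - a ^ (2 * x))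
      (n := y * padicValNat 2 b) (by omega)
    rw [← h5]
    refine dvd_trans ?_ hdv2
    rw [mul_comm, pow_mul]
    exact pow_dvd_pow_of_dvd pow_padicValNat_dvd _
  have e5 : 2 ≤ padicValNat 2 b := by
    rw [← padicValNat_dvd_iff_le (by omega)]
    exact h.b4
  have e6 : 2 ^ padicValNat 2 x ≤ x := Nat.le_of_dvd hx pow_padicValNat_dvd
  obtain ⟨v, hv⟩ : ∃ v, v = padicValNat 2 b := ⟨_, rfl⟩
  obtain ⟨u, hu⟩ : ∃ u, u = padicValNat 2 x := ⟨_, rfl⟩
  rw [← hv] at e2 e4 e5
  rw [← hu] at e3 e6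
  have e7 : y * v ≤ 2 * v + u := by omega
  have e8 : (x + 1) * v ≤ y * v := Nat.mul_le_mul_right _ (by omega)
  rcases Nat.lt_or_ge x 2 with hx2 | hx2
  · have hx1 : x = 1 := by omega
    subst hx1
    simp only [pow_one] at heq hdv
    have h6 : b ^ 2 ≤ b ^ y := Nat.pow_le_pow_right (by omega) (by omega)
    have h7 : b ^ y ≤ c - a := Nat.le_of_dvd (by omega) hdv
    have h8 : b ^ 2 = (c + a) * (c - a) := by
      rw [← Nat.sq_sub_sq]; have := h.pyth; omega
    have ha3 := h.a3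
    have h9 : 2 * (c - a) ≤ (c + a) * (c - a) := Nat.mul_le_mul_right _ (by omega)
    omega
  · obtain ⟨w, rfl⟩ : ∃ w, x = w + 2 := ⟨x - 2, by omega⟩
    have e9 : (w + 1) * v ≤ u := by
      have : (w + 2 + 1) * v = (w + 1) * v + 2 * v := by ring
      omega
    have e10 : (w + 1) * 2 ≤ (w + 1) * v := Nat.mul_le_mul_left _ e5
    have e11 : 2 ^ ((w + 1) * 2) ≤ w + 2 := (Nat.pow_le_pow_right (by norm_num) (e10.trans e9)).trans e6
    have e12 : (w + 1) * 2 < 2 ^ ((w + 1) * 2) := Nat.lt_two_pow_self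
    omega

/-- the case `z = y < x` -/
lemma no_min2 {a b c k x y : ℕ} (h : PT a b c) (hy : 0 < y) (hyx : y < x)
    (heq : k ^ (x - y) * a ^ x + b ^ y = c ^ y) : False := by
  have ha3 := h.a3
  have hb4 := h.b4'
  have hbc := h.b_lt
  obtain ⟨p, hp, hpa⟩ := Nat.exists_prime_and_dvd (by omega : a ≠ 1)
  have hp2 : p ≠ 2 := by rintro rfl; exact h.aodd hpa
  have hp3 : 3 ≤ p := by have := hp.two_le; omega
  have : Fact p.Prime := ⟨hp⟩
  have hdv : a ^ x ∣ c ^ y - b ^ y := ⟨k ^ (x - y), by rw [← heq]; ring_nf; omega⟩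
  have hlt : b ^ y < c ^ y := Nat.pow_lt_pow_left hbc (by omega)
  have hdv2 : a ^ x ∣ (c ^ 2) ^ y - (b ^ 2) ^ y := by
    refine hdv.trans ?_
    have := Nat.sub_dvd_pow_sub_pow (c ^ y) (b ^ y) 2
    rwa [← pow_mul, ← pow_mul, mul_comm y 2, pow_mul, pow_mul] at this
  have hbc2 : b ^ 2 < c ^ 2 := Nat.pow_lt_pow_left hbc (by omega)
  have hlt2 : (b ^ 2) ^ y < (c ^ 2) ^ y := Nat.pow_lt_pow_left hbc2 (by omega)
  have hsub : c ^ 2 - b ^ 2 = a ^ 2 := by have := h.pyth; omega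
  have e1 : padicValNat p ((c ^ 2) ^ y - (b ^ 2) ^ y) =
      padicValNat p (c ^ 2 - b ^ 2) + padicValNat p y := by
    refine padicValNat.pow_sub_pow (hp.odd_of_ne_two hp2) hbc2 ?_ ?_ (by omega)
    · rw [hsub]; exact dvd_pow hpa (by norm_num)
    · intro h5
      exact hp.one_lt.ne' (Nat.eq_one_of_dvd_coprimes h.hac hpa (hp.dvd_of_dvd_pow h5))
  rw [hsub, padicValNat.pow a 2] at e1
  have e4 : x * padicValNat p a ≤ padicValNat p ((c ^ 2) ^ y - (b ^ 2) ^ y) := by
    rw [← padicValNat_dvd_iff_le (by omega)]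
    refine dvd_trans ?_ hdv2
    rw [mul_comm, pow_mul]
    exact pow_dvd_pow_of_dvd pow_padicValNat_dvd _
  have e5 : 1 ≤ padicValNat p a := by
    rw [← padicValNat_dvd_iff_le (by omega), pow_one]
    exact hpa
  have e6 : p ^ padicValNat p y ≤ y := Nat.le_of_dvd hy pow_padicValNat_dvd
  obtain ⟨v, hv⟩ : ∃ v, v = padicValNat p a := ⟨_, rfl⟩
  obtain ⟨u, hu⟩ : ∃ u, u = padicValNat p y := ⟨_, rfl⟩
  rw [← hv] at e1 e4 e5
  rw [← hu] at e1 e6
  have e8 : (y + 1) * v ≤ x * v := Nat.mul_le_mul_right _ (by omega)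
  rcases Nat.lt_or_ge y 2 with hy2 | hy2
  · have hy1 : y = 1 := by omega
    subst hy1
    simp only [pow_one] at hdv
    have h6 : a ^ 2 ≤ a ^ x := Nat.pow_le_pow_right (by omega) (by omega)
    have h7 : a ^ x ≤ c - b := Nat.le_of_dvd (by omega) hdv
    have h8 := h.ca
    omega
  · obtain ⟨w, rfl⟩ : ∃ w, y = w + 2 := ⟨y - 2, by omega⟩
    have e9 : (w + 1) * v ≤ u := by
      have : (w + 2 + 1) * v = (w + 1) * v + 2 * v := by ring
      omega
    have e10 : (w + 1) * 1 ≤ (w + 1) * v := Nat.mul_le_mul_left _ e5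
    have e11 : 3 ^ (w + 1) ≤ w + 2 := by
      calc 3 ^ (w + 1) ≤ p ^ (w + 1) := Nat.pow_le_pow_left hp3 _
        _ ≤ p ^ u := Nat.pow_le_pow_right (by omega) (by omega)
        _ ≤ w + 2 := e6
    have e12 : w + 1 < 2 ^ (w + 1) := Nat.lt_two_pow_self
    have e13 : 2 ^ (w + 1) < 3 ^ (w + 1) := Nat.pow_lt_pow_left (by norm_num) (by omega)
    omega

/-- **The order of the exponents.** -/
theorem order {a b c k x y z : ℕ} (h : PT a b c) (hk : 2 ≤ k) (hx : 0 < x) (hy : 0 < y)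
    (hz : 0 < z) (heq : (k * a) ^ x + (k * b) ^ y = (k * c) ^ z) (hne : ¬ (x = 2 ∧ y = 2 ∧ z = 2)) :
    (x < z ∧ z < y) ∨ (y < z ∧ z < x) := by
  have ha3 := h.a3
  have hb4 := h.b4'
  have hkz : 0 < k ^ z := by positivity
  by_contra hcon
  -- `z` is less than the maximum
  have hmax : z < x ∨ z < y := by
    by_contra h1
    push Not at h1
    apply hne
    refine size (A := k * a) (B := k * b) (C := k * c) (by nlinarith) (by nlinarith) ?_ hx hy hz h1.1 h1.2 heq
    rw [mul_pow, mul_pow, mul_pow, ← mul_add, h.pyth]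
  rw [mul_pow, mul_pow, mul_pow] at heq
  -- the remaining cases
  have hsplit : ∀ {u v : ℕ}, v ≤ u → k ^ u = k ^ v * k ^ (u - v) := by
    intro u v huv
    rw [← pow_add]
    congr 1
    omega
  rcases lt_trichotomy x y with hxy | hxy | hxy
  · -- `x < y`
    have hzx : z ≤ x := by omega
    have e1 : k ^ z * (k ^ (x - z) * (a ^ x + k ^ (y - x) * b ^ y)) = k ^ z * c ^ z := by
      rw [← heq, hsplit hzx, hsplit (show z ≤ y by omega),
        show k ^ (y - z) = k ^ (x - z) * k ^ (y - x) by rw [← pow_add]; congr 1; omega]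
      ring
    have e2 := Nat.eq_of_mul_eq_mul_left hkz e1
    rcases Nat.eq_or_lt_of_le hzx with h1 | h1
    · subst h1
      simp only [Nat.sub_self, pow_zero, one_mul] at e2
      exact no_min1 h hz hxy e2
    · exact no_lt (by omega) (by omega) h.hac h.pyth hk hz h1 hxy e2
  · subst hxy
    have hzx : z < x := by omega
    refine no_eq h hz hzx (Nat.eq_of_mul_eq_mul_left hkz ?_) (k := k)
    rw [← heq, hsplit hzx.le]
    ring
  · have hzy : z ≤ y := by omega
    have e1 : k ^ z * (k ^ (y - z) * (b ^ y + k ^ (x - y) * a ^ x)) = k ^ z * c ^ z := by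
      rw [← heq, hsplit hzy, hsplit (show z ≤ x by omega),
        show k ^ (x - z) = k ^ (y - z) * k ^ (x - y) by rw [← pow_add]; congr 1; omega]
      ring
    have e2 := Nat.eq_of_mul_eq_mul_left hkz e1
    rcases Nat.eq_or_lt_of_le hzy with h1 | h1
    · subst h1
      simp only [Nat.sub_self, pow_zero, one_mul] at e2
      exact no_min2 (k := k) h hz hxy (by rw [← e2]; ring)
    · exact no_lt (by omega) (by omega) h.hbc (by rw [add_comm]; exact h.pyth) hk hz h1 hxy e2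

end Pool.Agent.R480.Jes
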