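import Pool.Agent.R480.Jes.Total

/-!
# The number of exceptional generators, in powers of `N`
-/

set_option autoImplicit false

namespace Pool.Agent.R480.Jes

open Finset Classical

lemma natlog_le (N : ℕ) : (Nat.log 2 N : ℝ) * Real.log 2 ≤ Real.log N := by
  rcases Nat.eq_zero_or_pos N with h | h
  · subst h; simp
  have h1 : 2 ^ Nat.log 2 N ≤ N := Nat.pow_log_le_self 2 (by omega)
  have h2 : ((2 : ℝ) ^ Nat.log 2 N) ≤ N := by exact_mod_cast h1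
  have h3 := Real.log_le_log (by positivity) h2
  rwa [Real.log_pow] at h3

lemma S_le (N : ℕ) : ((2 * Nat.log 2 N + 3 : ℕ) : ℝ) ≤ 3 * Real.log N + 3 := by
  have h1 := natlog_le N
  have h2 := Real.log_two_gt_d9
  have h3 : (0 : ℝ) ≤ (Nat.log 2 N : ℝ) := by positivity
  push_cast
  nlinarith

theorem asym_all : ∃ C : ℝ, 0 < C ∧ ∀ N : ℕ, 1 ≤ N →
    ((box N (fun s t => Gen s t ∧ Exc s t)).card : ℝ) ≤ C * (N : ℝ) ^ (2 - 1 / 50 : ℝ) := by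
  obtain ⟨C₀, κ, hC⟩ := count_all
  obtain ⟨ε, hε⟩ : ∃ ε : ℝ, ε = 1 / (20 * (5 * κ + 1)) := ⟨_, rfl⟩
  have hε0 : 0 < ε := by rw [hε]; positivity
  have hε1 : (5 * κ + 1) * ε = 1 / 20 := by
    rw [hε]
    field_simp
  have hκ0 : (0 : ℝ) ≤ κ := by positivity
  have hε2 : ε ≤ 1 := by nlinarith
  obtain ⟨c₁, hc₁⟩ : ∃ c₁ : ℝ, c₁ = 3 / ε + 3 := ⟨_, rfl⟩
  have hc₁0 : 0 < c₁ := by rw [hc₁]; positivity
  obtain ⟨c₂, hc₂⟩ : ∃ c₂ : ℝ, c₂ = C₀ * 16 * c₁ ^ κ := ⟨_, rfl⟩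
  have hc₂0 : 0 ≤ c₂ := by rw [hc₂]; positivity
  obtain ⟨c₃, hc₃⟩ : ∃ c₃ : ℝ, c₃ = 6 * (1 + 2 / ε) := ⟨_, rfl⟩
  have hc₃0 : 0 < c₃ := by rw [hc₃]; positivity
  refine ⟨6 + 10 * c₂ ^ 4 + 30 * c₂ ^ 5 * c₃, by positivity, ?_⟩
  intro N hN
  obtain ⟨n, hn⟩ : ∃ n : ℝ, n = (N : ℝ) := ⟨_, rfl⟩
  have hn1 : 1 ≤ n := by rw [hn]; exact_mod_cast hN
  have hn0 : 0 < n := by linarith
  obtain ⟨R, hR⟩ : ∃ R : ℕ, R = ⌊n ^ (1 / 50 : ℝ)⌋₊ + 1 := ⟨_, rfl⟩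
  have hnδ : 1 ≤ n ^ (1 / 50 : ℝ) := Real.one_le_rpow hn1 (by norm_num)
  have hR1 : n ^ (1 / 50 : ℝ) ≤ R := by
    rw [hR]; push_cast; exact (Nat.lt_floor_add_one _).le
  have hR2 : (R : ℝ) ≤ 2 * n ^ (1 / 50 : ℝ) := by
    rw [hR]; push_cast
    have := Nat.floor_le (by positivity : 0 ≤ n ^ (1 / 50 : ℝ))
    linarith
  have hlog : ∀ m : ℝ, 0 ≤ m → Real.log m ≤ m ^ ε / ε := fun m hm => Real.log_le_rpow_div hm hε0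
  have hnε : 1 ≤ n ^ ε := Real.one_le_rpow hn1 hε0.le
  have hS : ((2 * Nat.log 2 N + 3 : ℕ) : ℝ) ≤ c₁ * n ^ ε := by
    have h1 := S_le N
    rw [← hn] at h1
    have h2 := hlog n hn0.le
    rw [hc₁]
    have h3 : (3 / ε + 3) * n ^ ε = 3 * (n ^ ε / ε) + 3 * n ^ ε := by ring
    rw [h3]
    linarith
  obtain ⟨X, hX⟩ : ∃ X : ℕ, X = C₀ * R ^ 4 * (2 * Nat.log 2 N + 3) ^ κ := ⟨_, rfl⟩
  have hXr : (X : ℝ) ≤ c₂ * n ^ (4 / 50 + κ * ε : ℝ) := by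
    rw [hX]
    push_cast
    push_cast at hS
    calc (C₀ : ℝ) * (R : ℝ) ^ 4 * (2 * (Nat.log 2 N : ℝ) + 3) ^ κ
        ≤ (C₀ : ℝ) * (2 * n ^ (1 / 50 : ℝ)) ^ 4 * (c₁ * n ^ ε) ^ κ := by gcongr
      _ = c₂ * ((n ^ (1 / 50 : ℝ)) ^ 4 * (n ^ ε) ^ κ) := by rw [hc₂, mul_pow, mul_pow]; ring
      _ = c₂ * n ^ (4 / 50 + κ * ε : ℝ) := by
          congr 1
          rw [← Real.rpow_natCast (n ^ (1 / 50 : ℝ)) 4, ← Real.rpow_natCast (n ^ ε) κ,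
            ← Real.rpow_mul hn0.le, ← Real.rpow_mul hn0.le, ← Real.rpow_add hn0]
          congr 1
          push_cast
          ring
  have hW : (W N : ℝ) ≤ c₃ * n ^ (3 / 2 + ε : ℝ) := by
    have h1 : ((Nat.sqrt (2 * N) : ℕ) : ℝ) + 1 ≤ 3 * n ^ (1 / 2 : ℝ) := by
      have h2 : ((Nat.sqrt (2 * N) : ℕ) : ℝ) ≤ Real.sqrt ((2 * N : ℕ) : ℝ) := Real.nat_sqrt_le_real_sqrt
      rw [← Real.sqrt_eq_rpow]
      push_cast at h2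
      rw [← hn, Real.sqrt_mul (by norm_num)] at h2
      have h3 : Real.sqrt 2 ≤ 2 := by
        rw [Real.sqrt_le_left (by norm_num)]; norm_num
      have h4 : 1 ≤ Real.sqrt n := by
        rw [Real.one_le_sqrt]; exact hn1
      nlinarith
    have h2 : ((Pr (2 * N)).card : ℝ) ≤ 2 * n * ((1 + 2 / ε) * n ^ ε) := by
      refine (Pr_card (2 * N)).trans ?_
      push_cast
      rw [← hn]
      apply mul_le_mul_of_nonneg_left _ (by positivity)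
      have h3 := hlog (2 * n) (by positivity)
      rw [Real.mul_rpow (by norm_num) hn0.le] at h3
      have h4 : (2 : ℝ) ^ ε ≤ 2 := by
        calc (2 : ℝ) ^ ε ≤ 2 ^ (1 : ℝ) := Real.rpow_le_rpow_of_exponent_le (by norm_num) hε2
          _ = 2 := Real.rpow_one 2
      have h5 : 2 ^ ε * n ^ ε / ε ≤ 2 * n ^ ε / ε := by gcongr
      have h6 : (1 + 2 / ε) * n ^ ε = n ^ ε + 2 * n ^ ε / ε := by ring
      rw [h6]
      linarith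
    rw [W]
    push_cast
    calc _ ≤ (3 * n ^ (1 / 2 : ℝ)) * (2 * n * ((1 + 2 / ε) * n ^ ε)) := by
          gcongr
      _ = c₃ * (n ^ (1 / 2 : ℝ) * n ^ (1 : ℝ) * n ^ ε) := by rw [hc₃, Real.rpow_one]; ring
      _ = _ := by
          rw [← Real.rpow_add hn0, ← Real.rpow_add hn0]
          norm_num
  have hmain := hC N R X (by omega) (by rw [hX])
  have hmain' : ((box N (fun s t => Gen s t ∧ Exc s t)).card : ℝ) ≤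
      ((N : ℝ) + 1) + ((N : ℝ) + 1) * (((N / R : ℕ) : ℝ) + 1) +
        (X : ℝ) ^ 3 * (5 * X * ((N : ℝ) + 1) + 30 * (X : ℝ) ^ 2 * W N) := by
    exact_mod_cast hmain
  have hpw : ∀ {u : ℝ}, u ≤ 2 - 1 / 50 → n ^ u ≤ n ^ (2 - 1 / 50 : ℝ) := fun hu =>
    Real.rpow_le_rpow_of_exponent_le hn1 hu
  have hP0 : 0 < n ^ (2 - 1 / 50 : ℝ) := by positivity
  have t1 : n + 1 ≤ 2 * n ^ (2 - 1 / 50 : ℝ) := by
    have := hpw (u := 1) (by norm_num)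
    rw [Real.rpow_one] at this
    linarith
  have t2 : (n + 1) * (((N / R : ℕ) : ℝ) + 1) ≤ 4 * n ^ (2 - 1 / 50 : ℝ) := by
    have h1 : ((N / R : ℕ) : ℝ) ≤ n ^ (1 - 1 / 50 : ℝ) := by
      calc ((N / R : ℕ) : ℝ) ≤ (N : ℝ) / R := Nat.cast_div_le
        _ ≤ n / n ^ (1 / 50 : ℝ) := by rw [← hn]; gcongr
        _ = n ^ (1 - 1 / 50 : ℝ) := by rw [Real.rpow_sub hn0, Real.rpow_one]
    have h2 : 1 ≤ n ^ (1 - 1 / 50 : ℝ) := Real.one_le_rpow hn1 (by norm_num)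
    calc (n + 1) * (((N / R : ℕ) : ℝ) + 1) ≤ (2 * n) * (2 * n ^ (1 - 1 / 50 : ℝ)) := by
          gcongr <;> linarith
      _ = 4 * (n ^ (1 : ℝ) * n ^ (1 - 1 / 50 : ℝ)) := by rw [Real.rpow_one]; ring
      _ = _ := by
          rw [← Real.rpow_add hn0]
          norm_num
  have t3 : (X : ℝ) ^ 3 * (5 * X * (n + 1)) ≤ 10 * c₂ ^ 4 * n ^ (2 - 1 / 50 : ℝ) := by
    calc (X : ℝ) ^ 3 * (5 * X * (n + 1)) = 5 * (X : ℝ) ^ 4 * (n + 1) := by ring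
      _ ≤ 5 * (c₂ * n ^ (4 / 50 + κ * ε : ℝ)) ^ 4 * (2 * n) := by
          gcongr
          linarith
      _ = 10 * c₂ ^ 4 * ((n ^ (4 / 50 + κ * ε : ℝ)) ^ 4 * n ^ (1 : ℝ)) := by
          rw [mul_pow, Real.rpow_one]; ring
      _ = 10 * c₂ ^ 4 * n ^ ((4 / 50 + κ * ε) * 4 + 1 : ℝ) := by
          rw [← Real.rpow_natCast (n ^ (4 / 50 + κ * ε : ℝ)) 4, ← Real.rpow_mul hn0.le,
            ← Real.rpow_add hn0]
          norm_num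
      _ ≤ _ := by
          apply mul_le_mul_of_nonneg_left _ (by positivity)
          apply hpw
          nlinarith
  have t4 : (X : ℝ) ^ 3 * (30 * (X : ℝ) ^ 2 * W N) ≤ 30 * c₂ ^ 5 * c₃ * n ^ (2 - 1 / 50 : ℝ) := by
    calc (X : ℝ) ^ 3 * (30 * (X : ℝ) ^ 2 * W N) = 30 * (X : ℝ) ^ 5 * W N := by ring
      _ ≤ 30 * (c₂ * n ^ (4 / 50 + κ * ε : ℝ)) ^ 5 * (c₃ * n ^ (3 / 2 + ε : ℝ)) := by
          gcongr
      _ = 30 * c₂ ^ 5 * c₃ * ((n ^ (4 / 50 + κ * ε : ℝ)) ^ 5 * n ^ (3 / 2 + ε : ℝ)) := by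
          rw [mul_pow]; ring
      _ = 30 * c₂ ^ 5 * c₃ * n ^ ((4 / 50 + κ * ε) * 5 + (3 / 2 + ε) : ℝ) := by
          rw [← Real.rpow_natCast (n ^ (4 / 50 + κ * ε : ℝ)) 5, ← Real.rpow_mul hn0.le,
            ← Real.rpow_add hn0]
          norm_num
      _ ≤ _ := by
          apply mul_le_mul_of_nonneg_left _ (by positivity)
          apply hpw
          nlinarith
  rw [← hn] at hmain' ⊢
  calc _ ≤ _ := hmain'
    _ = (n + 1) + (n + 1) * (((N / R : ℕ) : ℝ) + 1) + ((X : ℝ) ^ 3 * (5 * X * (n + 1)) +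
        (X : ℝ) ^ 3 * (30 * (X : ℝ) ^ 2 * W N)) := by ring
    _ ≤ 2 * n ^ (2 - 1 / 50 : ℝ) + 4 * n ^ (2 - 1 / 50 : ℝ) +
        (10 * c₂ ^ 4 * n ^ (2 - 1 / 50 : ℝ) + 30 * c₂ ^ 5 * c₃ * n ^ (2 - 1 / 50 : ℝ)) := by
        gcongr
    _ = _ := by ring

theorem asym_one : ∃ (C : ℝ) (K : ℕ), 0 < C ∧ ∀ N : ℕ, 2 ≤ N →
    ((box N (fun s t => Gen s t ∧ Exc1 s t)).card : ℝ) ≤ C * N * (Real.log N) ^ K := by
  obtain ⟨C₀, κ, hC⟩ := count_one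
  refine ⟨(2 + 10 * (C₀ : ℝ) ^ 4) * 8 ^ (4 * κ), 4 * κ, by positivity, ?_⟩
  intro N hN
  have hmain := hC N (C₀ * (2 * Nat.log 2 N + 3) ^ κ) le_rfl
  obtain ⟨n, hn⟩ : ∃ n : ℝ, n = (N : ℝ) := ⟨_, rfl⟩
  have hn2 : 2 ≤ n := by rw [hn]; exact_mod_cast hN
  have hlog : 0.69 ≤ Real.log n := by
    have h1 := Real.log_two_gt_d9
    have h2 := Real.log_le_log (by norm_num) hn2
    linarith
  have hS : ((2 * Nat.log 2 N + 3 : ℕ) : ℝ) ≤ 8 * Real.log n := by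
    have h1 := S_le N
    rw [← hn] at h1
    linarith
  have hmain' : ((box N (fun s t => Gen s t ∧ Exc1 s t)).card : ℝ) ≤
      ((N : ℝ) + 1) + ((C₀ : ℝ) * ((2 * Nat.log 2 N + 3 : ℕ) : ℝ) ^ κ) ^ 3 *
        (5 * ((C₀ : ℝ) * ((2 * Nat.log 2 N + 3 : ℕ) : ℝ) ^ κ) * ((N : ℝ) + 1)) := by
    exact_mod_cast hmain
  rw [← hn] at hmain' ⊢
  have h1 : (1 : ℝ) ≤ ((2 * Nat.log 2 N + 3 : ℕ) : ℝ) ^ (4 * κ) := by
    apply one_le_pow₀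
    push_cast
    have : (0 : ℝ) ≤ (Nat.log 2 N : ℝ) := by positivity
    linarith
  calc _ ≤ _ := hmain'
    _ = (n + 1) * (1 + 5 * (C₀ : ℝ) ^ 4 * ((2 * Nat.log 2 N + 3 : ℕ) : ℝ) ^ (4 * κ)) := by
        rw [mul_comm 4 κ, pow_mul]; ring
    _ ≤ (2 * n) * (1 * ((2 * Nat.log 2 N + 3 : ℕ) : ℝ) ^ (4 * κ) +
        5 * (C₀ : ℝ) ^ 4 * ((2 * Nat.log 2 N + 3 : ℕ) : ℝ) ^ (4 * κ)) := by
        gcongr <;> linarith
    _ = (2 + 10 * (C₀ : ℝ) ^ 4) * n * ((2 * Nat.log 2 N + 3 : ℕ) : ℝ) ^ (4 * κ) := by ring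
    _ ≤ (2 + 10 * (C₀ : ℝ) ^ 4) * n * (8 * Real.log n) ^ (4 * κ) := by gcongr
    _ = _ := by rw [mul_pow]; ring

end Pool.Agent.R480.Jes
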