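import Mathlib

/-!
# Counting tools
-/

set_option autoImplicit false

namespace Pool.Agent.R480.Jes

open Finset Polynomial

/-- pairs of positive integers with product at most `M` -/
def Pr (M : ℕ) : Finset (ℕ × ℕ) := ((Icc 1 M) ×ˢ (Icc 1 M)).filter (fun p => p.1 * p.2 ≤ M)

theorem Pr_card (M : ℕ) : ((Pr M).card : ℝ) ≤ M * (1 + Real.log M) := by
  have h1 : (Pr M) ⊆ (Icc 1 M).biUnion (fun g => (Icc 1 (M / g)).image (fun h => (g, h))) := by
    rintro ⟨g, h⟩ hgh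
    simp only [Pr, mem_filter, mem_product, mem_Icc] at hgh
    simp only [mem_biUnion, mem_Icc, mem_image, Prod.mk.injEq]
    refine ⟨g, hgh.1.1, h, ⟨hgh.1.2.1, ?_⟩, rfl, rfl⟩
    rw [Nat.le_div_iff_mul_le (by omega)]
    rw [mul_comm]; exact hgh.2
  have h2 : (Pr M).card ≤ ∑ g ∈ Icc 1 M, (M / g) := by
    refine (card_le_card h1).trans (card_biUnion_le.trans ?_)
    apply sum_le_sum
    intro g _
    refine card_image_le.trans ?_
    simp
  have h3 : ((∑ g ∈ Icc 1 M, (M / g) : ℕ) : ℝ) ≤ M * (harmonic M : ℝ) := by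
    rw [harmonic_eq_sum_Icc]
    push_cast
    rw [mul_sum]
    apply sum_le_sum
    intro g _
    rw [← div_eq_mul_inv]
    exact Nat.cast_div_le
  have h4 := harmonic_le_one_add_log M
  calc ((Pr M).card : ℝ) ≤ ((∑ g ∈ Icc 1 M, (M / g) : ℕ) : ℝ) := by exact_mod_cast h2
    _ ≤ M * (harmonic M : ℝ) := h3
    _ ≤ _ := mul_le_mul_of_nonneg_left h4 (by positivity)

theorem fiber_count (M d : ℕ) (E : Finset (ℕ × ℕ)) (φ : ℕ × ℕ → ℕ × ℕ) (hφ : Set.InjOn φ E)
    (R : ℕ → ℕ → ℕ → ℕ → Prop)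
    (hE : ∀ e ∈ E, ∃ f₁ f₂ g₁ g₂ : ℕ, 0 < f₁ ∧ 0 < f₂ ∧ 0 < g₁ ∧ 0 < g₂ ∧
      φ e = (f₁ * f₂, g₁ * g₂) ∧ f₁ * f₂ ≤ M ∧ g₁ * g₂ ≤ M ∧ R f₁ f₂ g₁ g₂)
    (h1 : ∀ f₁ g₁ g₂ : ℕ, ∀ F : Finset ℕ, (∀ f₂ ∈ F, R f₁ f₂ g₁ g₂) → F.card ≤ d)
    (h2 : ∀ f₂ g₁ g₂ : ℕ, ∀ F : Finset ℕ, (∀ f₁ ∈ F, R f₁ f₂ g₁ g₂) → F.card ≤ d) :
    E.card ≤ 2 * (((Nat.sqrt M + 1) * (Pr M).card) * d) := by
  classical
  rw [← card_image_of_injOn hφ]
  set T₁ : Finset (ℕ × ℕ) := ((range (Nat.sqrt M + 1)) ×ˢ (Pr M)).biUnion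
    (fun e => ((range (M + 1)).filter (fun f => R e.1 f e.2.1 e.2.2)).image
      (fun f => (e.1 * f, e.2.1 * e.2.2))) with hT₁
  set T₂ : Finset (ℕ × ℕ) := ((range (Nat.sqrt M + 1)) ×ˢ (Pr M)).biUnion
    (fun e => ((range (M + 1)).filter (fun f => R f e.1 e.2.1 e.2.2)).image
      (fun f => (f * e.1, e.2.1 * e.2.2))) with hT₂
  have hsub : E.image φ ⊆ T₁ ∪ T₂ := by
    intro v hv
    rw [mem_image] at hv
    obtain ⟨e, he, rfl⟩ := hv
    obtain ⟨f₁, f₂, g₁, g₂, p1, p2, p3, p4, heq, hf, hg, hR⟩ := hE e he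
    have hgP : (g₁, g₂) ∈ Pr M := by
      simp only [Pr, mem_filter, mem_product, mem_Icc]
      exact ⟨⟨⟨p3, (Nat.le_mul_of_pos_right _ p4).trans hg⟩, p4,
        (Nat.le_mul_of_pos_left _ p3).trans hg⟩, hg⟩
    have hf1 : f₁ ≤ M := (Nat.le_mul_of_pos_right _ p2).trans hf
    have hf2 : f₂ ≤ M := (Nat.le_mul_of_pos_left _ p1).trans hf
    rcases Nat.lt_or_ge (Nat.sqrt M) f₁ with h3 | h3
    · have h4 : f₂ ≤ Nat.sqrt M := by
        by_contra hcon
        push Not at hcon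
        have h5 : (Nat.sqrt M + 1) * (Nat.sqrt M + 1) ≤ f₁ * f₂ := Nat.mul_le_mul h3 hcon
        have h6 := Nat.lt_succ_sqrt M
        simp only [Nat.succ_eq_add_one] at h6
        omega
      apply mem_union_right
      rw [hT₂, mem_biUnion]
      refine ⟨(f₂, (g₁, g₂)), ?_, ?_⟩
      · rw [mem_product]
        exact ⟨mem_range.2 (by simp only; omega), hgP⟩
      · rw [mem_image]
        exact ⟨f₁, mem_filter.2 ⟨mem_range.2 (by omega), hR⟩, heq.symm⟩
    · apply mem_union_left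
      rw [hT₁, mem_biUnion]
      refine ⟨(f₁, (g₁, g₂)), ?_, ?_⟩
      · rw [mem_product]
        exact ⟨mem_range.2 (by simp only; omega), hgP⟩
      · rw [mem_image]
        exact ⟨f₂, mem_filter.2 ⟨mem_range.2 (by omega), hR⟩, heq.symm⟩
  have hc : ((range (Nat.sqrt M + 1)) ×ˢ (Pr M)).card = (Nat.sqrt M + 1) * (Pr M).card := by
    rw [card_product, card_range]
  have c1 : T₁.card ≤ ((Nat.sqrt M + 1) * (Pr M).card) * d := by
    rw [hT₁, ← hc]
    apply card_biUnion_le_card_mul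
    intro e _
    exact card_image_le.trans (h1 _ _ _ _ (fun f hf => (mem_filter.1 hf).2))
  have c2 : T₂.card ≤ ((Nat.sqrt M + 1) * (Pr M).card) * d := by
    rw [hT₂, ← hc]
    apply card_biUnion_le_card_mul
    intro e _
    exact card_image_le.trans (h2 _ _ _ _ (fun f hf => (mem_filter.1 hf).2))
  calc (E.image φ).card ≤ (T₁ ∪ T₂).card := card_le_card hsub
    _ ≤ T₁.card + T₂.card := card_union_le _ _
    _ ≤ _ := by omega

theorem roots_card (P : ℚ[X]) (hP : P ≠ 0) (F : Finset ℕ)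
    (h : ∀ n ∈ F, P.eval (n : ℚ) = 0) : F.card ≤ P.natDegree := by
  classical
  have h1 : F.image (fun n : ℕ => (n : ℚ)) ⊆ P.roots.toFinset := by
    intro v hv
    rw [mem_image] at hv
    obtain ⟨n, hn, rfl⟩ := hv
    rw [Multiset.mem_toFinset, mem_roots hP]
    exact h n hn
  calc F.card = (F.image (fun n : ℕ => (n : ℚ))).card :=
        (card_image_of_injective _ Nat.cast_injective).symm
    _ ≤ P.roots.toFinset.card := card_le_card h1
    _ ≤ Multiset.card P.roots := Multiset.toFinset_card_le _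
    _ ≤ P.natDegree := card_roots' P

lemma deg_quad (A B : ℚ) : (C A + C B * X ^ 2 : ℚ[X]).natDegree ≤ 2 := by
  compute_degree

lemma deg_lin (D : ℚ) : (C D * X : ℚ[X]).natDegree ≤ 1 := by
  compute_degree

theorem roots1 (A B A' B' D E : ℚ) (x z n m : ℕ) (hx : 0 < x) (h0 : A ^ (z * n) ≠ E * A' ^ m)
    (F : Finset ℕ) (h : ∀ T ∈ F, ((A + B * (T : ℚ) ^ 2) ^ z - (D * T) ^ x) ^ n =
      E * (A' + B' * (T : ℚ) ^ 2) ^ m) : F.card ≤ n * (2 * z + x) + 2 * m := by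
  set P : ℚ[X] := ((C A + C B * X ^ 2) ^ z - (C D * X) ^ x) ^ n - C E * (C A' + C B' * X ^ 2) ^ m
    with hP
  have hdeg : P.natDegree ≤ n * (2 * z + x) + 2 * m := by
    rw [hP]
    have e1 : ((C A + C B * X ^ 2 : ℚ[X]) ^ z).natDegree ≤ 2 * z + x :=
      (natDegree_pow_le_of_le z (deg_quad A B)).trans (by omega)
    have e2 : ((C D * X : ℚ[X]) ^ x).natDegree ≤ 2 * z + x :=
      (natDegree_pow_le_of_le x (deg_lin D)).trans (by omega)
    have e3 := natDegree_pow_le_of_le n (natDegree_sub_le_of_le e1 e2)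
    rw [max_self] at e3
    have e4 : (C E * (C A' + C B' * X ^ 2 : ℚ[X]) ^ m).natDegree ≤ 2 * m := by
      refine (natDegree_C_mul_le _ _).trans ?_
      exact (natDegree_pow_le_of_le m (deg_quad A' B')).trans (by omega)
    refine (natDegree_sub_le_of_le e3 e4).trans ?_
    exact max_le (by omega) (by omega)
  have hne : P ≠ 0 := by
    intro hz
    apply h0
    have h1 : P.eval 0 = 0 := by rw [hz, eval_zero]
    rw [hP] at h1
    simp only [eval_sub, eval_pow, eval_add, eval_mul, eval_C, eval_X, mul_zero, ne_eq,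
      OfNat.ofNat_ne_zero, not_false_eq_true, zero_pow, add_zero, hx.ne', sub_zero] at h1
    rw [pow_mul]
    linarith
  refine (roots_card P hne F ?_).trans hdeg
  intro T hT
  rw [hP]
  simp only [eval_sub, eval_pow, eval_add, eval_mul, eval_C, eval_X]
  rw [h T hT, sub_self]

theorem roots2 (A B A' B' D E : ℚ) (z n l m : ℕ) (hl : 0 < l) (h0 : A ^ z ≠ D)
    (F : Finset ℕ) (h : ∀ T ∈ F, ((A + B * (T : ℚ) ^ 2) ^ z - D) ^ n =
      (E * T) ^ l * (A' + B' * (T : ℚ) ^ 2) ^ m) : F.card ≤ n * (2 * z) + l + 2 * m := by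
  set P : ℚ[X] := ((C A + C B * X ^ 2) ^ z - C D) ^ n - (C E * X) ^ l * (C A' + C B' * X ^ 2) ^ m
    with hP
  have hdeg : P.natDegree ≤ n * (2 * z) + l + 2 * m := by
    rw [hP]
    have e1 : ((C A + C B * X ^ 2 : ℚ[X]) ^ z).natDegree ≤ 2 * z :=
      (natDegree_pow_le_of_le z (deg_quad A B)).trans (by omega)
    have e2 : ((C D : ℚ[X])).natDegree ≤ 2 * z := by
      rw [natDegree_C]; omega
    have e3 := natDegree_pow_le_of_le n (natDegree_sub_le_of_le e1 e2)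
    rw [max_self] at e3
    have e4 : ((C E * X : ℚ[X]) ^ l).natDegree ≤ l := by
      have := natDegree_pow_le_of_le l (deg_lin E)
      omega
    have e5 : ((C A' + C B' * X ^ 2 : ℚ[X]) ^ m).natDegree ≤ 2 * m :=
      (natDegree_pow_le_of_le m (deg_quad A' B')).trans (by omega)
    have e6 := natDegree_mul_le_of_le e4 e5
    refine (natDegree_sub_le_of_le e3 e6).trans ?_
    exact max_le (by omega) (by omega)
  have hne : P ≠ 0 := by
    intro hz
    apply h0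
    have h1 : P.eval 0 = 0 := by rw [hz, eval_zero]
    rw [hP] at h1
    simp only [eval_sub, eval_pow, eval_add, eval_mul, eval_C, eval_X, mul_zero, ne_eq,
      OfNat.ofNat_ne_zero, not_false_eq_true, zero_pow, add_zero, hl.ne', zero_mul, sub_zero] at h1
    have := eq_zero_of_pow_eq_zero h1
    linarith
  refine (roots_card P hne F ?_).trans hdeg
  intro T hT
  rw [hP]
  simp only [eval_sub, eval_pow, eval_add, eval_mul, eval_C, eval_X]
  rw [h T hT, sub_self]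

end Pool.Agent.R480.Jes
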