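import Pool.Agent.R480.Jes.Exp
import Pool.Agent.R480.Jes.Count

/-!
# The number of exceptional generators for given exponents
-/

set_option autoImplicit false

namespace Pool.Agent.R480.Jes

open Finset

/-- `s > t > 0` are coprime of different parity -/
structure Gen (s t : ℕ) : Prop where
  pos : 0 < t
  lt : t < s
  cop : Nat.Coprime s t
  odd : Odd (s + t)

/-- some multiple of the triple with generators `s`, `t` has an exceptional solution -/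
def Exc (s t : ℕ) : Prop :=
  ∃ k x y z : ℕ, 1 ≤ k ∧ 0 < x ∧ 0 < y ∧ 0 < z ∧ ¬ (x = 2 ∧ y = 2 ∧ z = 2) ∧
    (k * (s ^ 2 - t ^ 2)) ^ x + (k * (2 * s * t)) ^ y = (k * (s ^ 2 + t ^ 2)) ^ z

lemma Gen.PT {s t : ℕ} (h : Gen s t) : PT (s ^ 2 - t ^ 2) (2 * s * t) (s ^ 2 + t ^ 2) := by
  obtain ⟨h0, h1, hco, hodd⟩ := h
  obtain ⟨e, he⟩ : ∃ e, s ^ 2 = t ^ 2 + e := ⟨s ^ 2 - t ^ 2, by
    have : t ^ 2 ≤ s ^ 2 := Nat.pow_le_pow_left h1.le 2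
    omega⟩
  have hae : s ^ 2 - t ^ 2 = e := by omega
  rw [hae]
  obtain ⟨d, rfl⟩ : ∃ d, s = t + d := ⟨s - t, by omega⟩
  have hd : 0 < d := by omega
  have hfac : e = d * (2 * t + d) := by nlinarith
  have hdodd : Odd d := by
    have : t + d + t = 2 * t + d := by ring
    rw [this] at hodd
    exact (Nat.odd_add.1 (by rw [add_comm]; exact hodd)).2 (even_two_mul t)
  have heodd : Odd e := by
    rw [hfac]
    exact hdodd.mul ((even_two_mul t).add_odd hdodd)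
  have hcodd : Odd ((t + d) ^ 2 + t ^ 2) := by
    have : (t + d) ^ 2 + t ^ 2 = 2 * (t ^ 2 + t * d) + d ^ 2 := by ring
    rw [this]
    exact (even_two_mul _).add_odd (hdodd.pow)
  have hpr : ∀ p : ℕ, p.Prime → p ∣ t + d → p ∣ t → False := fun p hp g1 g2 =>
    hp.one_lt.ne' (Nat.eq_one_of_dvd_coprimes hco g1 g2)
  have hn2 : ∀ {n : ℕ}, Odd n → ¬ 2 ∣ n := fun hn => by
    rw [← even_iff_two_dvd, Nat.not_even_iff_odd]; exact hn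
  refine ⟨?_, ?_, ?_, ?_, ?_, ?_, ?_, ?_, ?_, ?_⟩
  · apply Nat.coprime_of_dvd
    intro p hp g1 g2
    rcases (hp.dvd_mul.1 g2) with g3 | g3
    · rcases (hp.dvd_mul.1 g3) with g4 | g4
      · have : p = 2 := (Nat.prime_dvd_prime_iff_eq hp Nat.prime_two).1 g4
        subst this
        exact hn2 heodd g1
      · apply hpr p hp g4
        apply hp.dvd_of_dvd_pow (n := 2)
        have : p ∣ t ^ 2 + e := by rw [← he]; exact dvd_pow g4 (by norm_num)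
        exact (Nat.dvd_add_left g1).1 this
    · apply hpr p hp _ g3
      apply hp.dvd_of_dvd_pow (n := 2)
      rw [he]
      exact Nat.dvd_add (dvd_pow g3 (by norm_num)) g1
  · apply Nat.coprime_of_dvd
    intro p hp g1 g2
    have hp2 : p ≠ 2 := by rintro rfl; exact hn2 heodd g1
    have g3 : p ∣ 2 * t ^ 2 := by
      have : (t + d) ^ 2 + t ^ 2 = 2 * t ^ 2 + e := by rw [he]; ring
      rw [this] at g2
      exact (Nat.dvd_add_left g1).1 g2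
    have g4 : p ∣ t := by
      rcases hp.dvd_mul.1 g3 with g | g
      · exact absurd ((Nat.prime_dvd_prime_iff_eq hp Nat.prime_two).1 g) hp2
      · exact hp.dvd_of_dvd_pow g
    apply hpr p hp _ g4
    apply hp.dvd_of_dvd_pow (n := 2)
    rw [he]
    exact Nat.dvd_add (dvd_pow g4 (by norm_num)) g1
  · apply Nat.coprime_of_dvd
    intro p hp g2 g1
    rcases (hp.dvd_mul.1 g2) with g3 | g3
    · rcases (hp.dvd_mul.1 g3) with g4 | g4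
      · have : p = 2 := (Nat.prime_dvd_prime_iff_eq hp Nat.prime_two).1 g4
        subst this
        exact hn2 hcodd g1
      · apply hpr p hp g4
        apply hp.dvd_of_dvd_pow (n := 2)
        exact (Nat.dvd_add_right (dvd_pow g4 (by norm_num))).1 g1
    · apply hpr p hp _ g3
      apply hp.dvd_of_dvd_pow (n := 2)
      exact (Nat.dvd_add_left (dvd_pow g3 (by norm_num))).1 g1
  · rw [he]
    have : (t ^ 2 + e + t ^ 2) ^ 2 = e ^ 2 + 4 * (t ^ 2 + e) * t ^ 2 := by ring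
    rw [this, ← he]
    ring
  · rw [hfac]
    nlinarith
  · positivity
  · have hev : Even ((t + d) * t) := by
      rcases Nat.even_or_odd t with ht | ht
      · exact ht.mul_left _
      · exact (ht.add_odd hdodd).mul_right _
    obtain ⟨r, hr⟩ := hev
    exact ⟨r, by rw [mul_assoc, hr]; ring⟩
  · exact hn2 heodd
  · exact hn2 hcodd
  · have h3 : (t + d) ^ 2 + t ^ 2 < (2 * t + d) ^ 2 := by nlinarith
    have h4 : 2 * t + d ≤ e := by rw [hfac]; exact Nat.le_mul_of_pos_left _ hd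
    exact h3.trans_le (Nat.pow_le_pow_left h4 2)

lemma ratio {s t R : ℕ} (h : Gen s t) (hR : s ≤ R * t) :
    2 * (s ^ 2 - t ^ 2) ^ (R ^ 2) ≤ (s ^ 2 + t ^ 2) ^ (R ^ 2) := by
  have hPT := h.PT
  obtain ⟨a, ha⟩ : ∃ a, a = s ^ 2 - t ^ 2 := ⟨_, rfl⟩
  rw [← ha] at hPT ⊢
  have ht : t ^ 2 ≤ s ^ 2 := Nat.pow_le_pow_left h.lt.le 2
  have hc : s ^ 2 + t ^ 2 = a + 2 * t ^ 2 := by omega
  have ha3 := hPT.a3
  rw [hc]
  have h1 : a ≤ R ^ 2 * (2 * t ^ 2) := by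
    calc a ≤ s ^ 2 := by omega
      _ ≤ (R * t) ^ 2 := Nat.pow_le_pow_left hR 2
      _ ≤ R ^ 2 * (2 * t ^ 2) := by rw [mul_pow]; exact Nat.mul_le_mul_left _ (by omega)
  have h2 : ((a : ℚ)) * (1 + (2 * t ^ 2 : ℕ) / a) = ((a + 2 * t ^ 2 : ℕ) : ℚ) := by
    have : (a : ℚ) ≠ 0 := by positivity
    field_simp
    push_cast
    ring
  have h3 : (1 : ℚ) + (R ^ 2 : ℕ) * ((2 * t ^ 2 : ℕ) / (a : ℚ)) ≤
      (1 + ((2 * t ^ 2 : ℕ) : ℚ) / a) ^ (R ^ 2) := by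
    apply one_add_mul_le_pow
    have : (0 : ℚ) ≤ ((2 * t ^ 2 : ℕ) : ℚ) / a := by positivity
    linarith
  have h4 : (1 : ℚ) ≤ (R ^ 2 : ℕ) * ((2 * t ^ 2 : ℕ) / (a : ℚ)) := by
    rw [← mul_div_assoc, one_le_div (by positivity)]
    exact_mod_cast h1
  have h5 : ((2 * a ^ (R ^ 2) : ℕ) : ℚ) ≤ (((a + 2 * t ^ 2) ^ (R ^ 2) : ℕ) : ℚ) := by
    push_cast
    have h6 : ((a : ℚ) + 2 * t ^ 2) ^ (R ^ 2) =
        (a : ℚ) ^ (R ^ 2) * (1 + ((2 * t ^ 2 : ℕ) : ℚ) / a) ^ (R ^ 2) := by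
      rw [← mul_pow, h2]
      push_cast
      rfl
    rw [h6, mul_comm]
    apply mul_le_mul_of_nonneg_left _ (by positivity)
    linarith
  exact_mod_cast h5

/-- exponents `x < z < y` -/
theorem countA (N x y z : ℕ) (hx : 0 < x) (hxz : x < z) (hzy : z < y) (E : Finset (ℕ × ℕ))
    (hE : ∀ e ∈ E, Gen e.1 e.2 ∧ e.1 ≤ N ∧ ∃ a₁ a₂ : ℕ, e.1 ^ 2 - e.2 ^ 2 = a₁ * a₂ ∧
      Nat.Coprime a₁ a₂ ∧ 2 ≤ a₁ ∧ 0 < a₂ ∧
      (((e.1 ^ 2 + e.2 ^ 2 : ℕ) : ℚ) ^ z - (a₂ : ℚ) ^ x) ^ (z - x) =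
        (a₁ : ℚ) ^ (x * (y - z)) * ((2 * e.1 * e.2 : ℕ) : ℚ) ^ (y * (z - x))) :
    E.card ≤ 2 * (((Nat.sqrt (2 * N) + 1) * (Pr (2 * N)).card) * (5 * y ^ 2)) := by
  refine fiber_count (2 * N) (5 * y ^ 2) E (fun e => (e.1 - e.2, e.1 + e.2)) ?_
    (fun f₁ f₂ g₁ g₂ => Odd (g₁ * g₂) ∧ 3 ≤ g₁ * g₂ ∧ 0 < f₁ ∧ 0 < f₂ ∧ 0 < g₁ ∧ 0 < g₂ ∧
      (((((g₁ * g₂ : ℕ) : ℚ) ^ 2 + ((f₁ * f₂ : ℕ) : ℚ) ^ 2) / 2) ^ z -
        ((f₂ * g₂ : ℕ) : ℚ) ^ x) ^ (z - x) = ((f₁ * g₁ : ℕ) : ℚ) ^ (x * (y - z)) *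
        ((((g₁ * g₂ : ℕ) : ℚ) ^ 2 - ((f₁ * f₂ : ℕ) : ℚ) ^ 2) / 2) ^ (y * (z - x))) ?_ ?_ ?_
  · rintro ⟨s, t⟩ h1 ⟨s', t'⟩ h2 h3
    have k1 := (hE _ h1).1.lt
    have k2 := (hE _ h2).1.lt
    simp only [Prod.mk.injEq] at h3 k1 k2 ⊢
    omega
  · rintro ⟨s, t⟩ he
    obtain ⟨hg, hs, a₁, a₂, ha, hcop, ha1, ha2, heq⟩ := hE _ he
    simp only at hg hs ha heq ⊢
    have hpos := hg.pos
    have hlt := hg.lt
    have hcop' : Nat.Coprime (s - t) (s + t) := by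
      apply Nat.coprime_of_dvd
      intro p hp g1 g2
      have hp2 : p ≠ 2 := by
        rintro rfl
        have := hg.odd
        rw [← Nat.not_even_iff_odd, even_iff_two_dvd] at this
        exact this g2
      have g3 : p ∣ 2 * s := by
        have : 2 * s = (s - t) + (s + t) := by omega
        rw [this]; exact Nat.dvd_add g1 g2
      have g4 : p ∣ 2 * t := by
        have : s + t = (s - t) + 2 * t := by omega
        rw [this] at g2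
        exact (Nat.dvd_add_right g1).1 g2
      have hdv : ∀ n, p ∣ 2 * n → p ∣ n := fun n hn =>
        (hp.dvd_mul.1 hn).resolve_left
          (fun g => hp2 ((Nat.prime_dvd_prime_iff_eq hp Nat.prime_two).1 g))
      exact hp.one_lt.ne' (Nat.eq_one_of_dvd_coprimes hg.cop (hdv _ g3) (hdv _ g4))
    have hprod : a₁ * a₂ = (s - t) * (s + t) := by
      rw [← ha, Nat.sq_sub_sq, mul_comm]
    obtain ⟨f₁, f₂, g₁, g₂, hp, hq, hm, hn⟩ := refine4 hcop hcop' hprod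
    have hf1 : 0 < f₁ := Nat.pos_of_ne_zero (by rintro rfl; omega)
    have hf2 : 0 < f₂ := Nat.pos_of_ne_zero (by rintro rfl; omega)
    have hg1 : 0 < g₁ := Nat.pos_of_ne_zero (by rintro rfl; omega)
    have hg2 : 0 < g₂ := Nat.pos_of_ne_zero (by rintro rfl; omega)
    have hpq : ((s - t : ℕ) : ℚ) = (s : ℚ) - t := by
      rw [Nat.cast_sub hlt.le]
    refine ⟨f₁, f₂, g₁, g₂, hf1, hf2, hg1, hg2, by rw [hp, hq], by omega, by omega, ?_, by omega,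
      hf1, hf2, hg1, hg2, ?_⟩
    · rw [← hq]; exact hg.odd
    · rw [← hp, ← hq, ← hn, ← hm, hpq]
      push_cast
      push_cast at heq
      have e1 : (((s : ℚ) + t) ^ 2 + ((s : ℚ) - t) ^ 2) / 2 = (s : ℚ) ^ 2 + t ^ 2 := by ring
      have e2 : (((s : ℚ) + t) ^ 2 - ((s : ℚ) - t) ^ 2) / 2 = 2 * (s : ℚ) * t := by ring
      rw [e1, e2]
      exact heq
  · -- fixed `f₁, g₁, g₂`
    intro f₁ g₁ g₂ F hF
    rcases F.eq_empty_or_nonempty with h0 | ⟨T₀, hT₀⟩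
    · rw [h0]; simp
    obtain ⟨ho, h3, p1, -, p3, p4, -⟩ := hF T₀ hT₀
    refine (roots1 (((g₁ * g₂ : ℕ) : ℚ) ^ 2 / 2) ((f₁ : ℚ) ^ 2 / 2) (((g₁ * g₂ : ℕ) : ℚ) ^ 2 / 2)
      (-((f₁ : ℚ) ^ 2 / 2)) (g₂ : ℚ) (((f₁ * g₁ : ℕ) : ℚ) ^ (x * (y - z))) x z (z - x) (y * (z - x))
      hx ?_ F ?_).trans ?_
    · have h4 : (3 : ℚ) ≤ ((g₁ * g₂ : ℕ) : ℚ) := by exact_mod_cast h3
      have h5 : (1 : ℚ) < ((g₁ * g₂ : ℕ) : ℚ) ^ 2 / 2 := by nlinarith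
      have h6 : z * (z - x) < y * (z - x) := Nat.mul_lt_mul_of_pos_right hzy (by omega)
      have h7 := pow_lt_pow_right₀ h5 h6
      have h8 : (1 : ℚ) ≤ ((f₁ * g₁ : ℕ) : ℚ) ^ (x * (y - z)) := by
        apply one_le_pow₀
        exact_mod_cast Nat.mul_pos p1 p3
      have h9 : (0 : ℚ) < (((g₁ * g₂ : ℕ) : ℚ) ^ 2 / 2) ^ (y * (z - x)) := by positivity
      have h10 := le_mul_of_one_le_left h9.le h8
      exact (h7.trans_le h10).ne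
    · intro T hT
      obtain ⟨-, -, -, -, -, -, h4⟩ := hF T hT
      push_cast at h4 ⊢
      rw [show ((g₁ : ℚ) * g₂) ^ 2 / 2 + (f₁ : ℚ) ^ 2 / 2 * (T : ℚ) ^ 2 =
        (((g₁ : ℚ) * g₂) ^ 2 + ((f₁ : ℚ) * T) ^ 2) / 2 by ring,
        show ((g₁ : ℚ) * g₂) ^ 2 / 2 + -((f₁ : ℚ) ^ 2 / 2) * (T : ℚ) ^ 2 =
        (((g₁ : ℚ) * g₂) ^ 2 - ((f₁ : ℚ) * T) ^ 2) / 2 by ring, mul_comm (g₂ : ℚ) (T : ℚ)]
      exact h4
    · have e1 : (z - x) * (2 * z + x) ≤ y * (3 * y) := Nat.mul_le_mul (by omega) (by omega)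
      have e2 : y * (z - x) ≤ y * y := Nat.mul_le_mul_left _ (by omega)
      nlinarith
  · intro f₂ g₁ g₂ F hF
    rcases F.eq_empty_or_nonempty with h0 | ⟨T₀, hT₀⟩
    · rw [h0]; simp
    obtain ⟨ho, h3, -, p2, p3, p4, -⟩ := hF T₀ hT₀
    refine (roots2 (((g₁ * g₂ : ℕ) : ℚ) ^ 2 / 2) ((f₂ : ℚ) ^ 2 / 2) (((g₁ * g₂ : ℕ) : ℚ) ^ 2 / 2)
      (-((f₂ : ℚ) ^ 2 / 2)) (((f₂ * g₂ : ℕ) : ℚ) ^ x) (g₁ : ℚ) z (z - x) (x * (y - z)) (y * (z - x))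
      (Nat.mul_pos hx (by omega)) ?_ F ?_).trans ?_
    · intro h4
      rw [div_pow, div_eq_iff (by positivity)] at h4
      have h5 : ((g₁ * g₂) ^ 2) ^ z = (f₂ * g₂) ^ x * 2 ^ z := by exact_mod_cast h4
      have h6 : Odd (((g₁ * g₂) ^ 2) ^ z) := (ho.pow).pow
      rw [h5] at h6
      have h7 : Even ((f₂ * g₂) ^ x * 2 ^ z) := by
        apply Even.mul_left
        exact (Nat.even_pow.2 ⟨even_two, by omega⟩)
      exact (Nat.not_even_iff_odd.2 h6) h7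
    · intro T hT
      obtain ⟨-, -, -, -, -, -, h4⟩ := hF T hT
      push_cast at h4 ⊢
      rw [show ((g₁ : ℚ) * g₂) ^ 2 / 2 + (f₂ : ℚ) ^ 2 / 2 * (T : ℚ) ^ 2 =
        (((g₁ : ℚ) * g₂) ^ 2 + ((T : ℚ) * f₂) ^ 2) / 2 by ring,
        show ((g₁ : ℚ) * g₂) ^ 2 / 2 + -((f₂ : ℚ) ^ 2 / 2) * (T : ℚ) ^ 2 =
        (((g₁ : ℚ) * g₂) ^ 2 - ((T : ℚ) * f₂) ^ 2) / 2 by ring, mul_comm (g₁ : ℚ) (T : ℚ)]
      exact h4
    · have e1 : (z - x) * (2 * z) ≤ y * (2 * y) := Nat.mul_le_mul (by omega) (by omega)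
      have e2 : y * (z - x) ≤ y * y := Nat.mul_le_mul_left _ (by omega)
      have e3 : x * (y - z) ≤ y * y := Nat.mul_le_mul (by omega) (by omega)
      nlinarith

end Pool.Agent.R480.Jes
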