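import Pool.Agent.R480.Jes.Cases

/-!
# The number of exceptional generators for exponents `y < z < x`
-/

set_option autoImplicit false

namespace Pool.Agent.R480.Jes

open Finset

/-- the relation between the parts of the generators, `s = α f₁ f₂`, `t = β g₁ g₂` -/
def RelB (α β : ℚ) (x y z f₁ f₂ g₁ g₂ : ℕ) : Prop :=
  ∃ t : ℕ, 2 ≤ t ∧ (t : ℚ) = β * (g₁ * g₂) ∧ g₂ ≤ 2 * t ∧ Nat.Coprime f₂ t ∧ 0 < f₁ ∧ 0 < f₂ ∧
    0 < g₁ ∧ 0 < g₂ ∧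
    (((β * (g₁ * g₂)) ^ 2 + (α * (f₁ * f₂)) ^ 2) ^ z - ((f₂ : ℚ) * g₂) ^ y) ^ (z - y) =
      ((f₁ : ℚ) * g₁) ^ (y * (x - z)) *
        (-(β * (g₁ * g₂)) ^ 2 + (α * (f₁ * f₂)) ^ 2) ^ (x * (z - y))

theorem countB_aux (M x y z : ℕ) (α β : ℚ) (hy : 0 < y) (hyz : y < z) (hzx : z < x)
    (E : Finset (ℕ × ℕ)) (φ : ℕ × ℕ → ℕ × ℕ) (hφ : Set.InjOn φ E)
    (hE : ∀ e ∈ E, ∃ f₁ f₂ g₁ g₂ : ℕ, 0 < f₁ ∧ 0 < f₂ ∧ 0 < g₁ ∧ 0 < g₂ ∧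
      φ e = (f₁ * f₂, g₁ * g₂) ∧ f₁ * f₂ ≤ M ∧ g₁ * g₂ ≤ M ∧ RelB α β x y z f₁ f₂ g₁ g₂) :
    E.card ≤ 2 * (((Nat.sqrt M + 1) * (Pr M).card) * (5 * x ^ 2)) := by
  refine fiber_count M (5 * x ^ 2) E φ hφ (RelB α β x y z) hE ?_ ?_
  · intro f₁ g₁ g₂ F hF
    rcases F.eq_empty_or_nonempty with h0 | ⟨T₀, hT₀⟩
    · rw [h0]; simp
    obtain ⟨t, ht2, htq, hgt, hco, p1, p2, p3, p4, -⟩ := hF T₀ hT₀
    refine (roots1 ((t : ℚ) ^ 2) ((α * f₁) ^ 2) (-(t : ℚ) ^ 2) ((α * f₁) ^ 2) (g₂ : ℚ)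
      (((f₁ : ℚ) * g₁) ^ (y * (x - z))) y z (z - y) (x * (z - y)) hy ?_ F ?_).trans ?_
    · intro h4
      have h5 : (2 : ℚ) ≤ (t : ℚ) := by exact_mod_cast ht2
      have h6 : (1 : ℚ) < (t : ℚ) ^ 2 := by nlinarith
      have h7 : z * (z - y) < x * (z - y) := Nat.mul_lt_mul_of_pos_right hzx (by omega)
      have h8 := pow_lt_pow_right₀ h6 h7
      have h9 : (1 : ℚ) ≤ ((f₁ : ℚ) * g₁) ^ (y * (x - z)) := by
        apply one_le_pow₀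
        exact_mod_cast Nat.mul_pos p1 p3
      have h10 : |((t : ℚ) ^ 2) ^ (z * (z - y))| =
          |((f₁ : ℚ) * g₁) ^ (y * (x - z)) * (-(t : ℚ) ^ 2) ^ (x * (z - y))| := by rw [h4]
      rw [abs_mul, abs_pow (-(t : ℚ) ^ 2), abs_neg, abs_of_pos (by positivity : (0 : ℚ) <
        ((t : ℚ) ^ 2) ^ (z * (z - y))), abs_of_pos (by positivity : (0 : ℚ) < (t : ℚ) ^ 2),
        abs_of_nonneg (by linarith : (0 : ℚ) ≤ ((f₁ : ℚ) * g₁) ^ (y * (x - z)))] at h10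
      have h11 : (0 : ℚ) < ((t : ℚ) ^ 2) ^ (x * (z - y)) := by positivity
      have h12 := le_mul_of_one_le_left h11.le h9
      linarith
    · intro T hT
      obtain ⟨t', -, htq', -, -, -, -, -, -, h4⟩ := hF T hT
      rw [← htq] at h4
      rw [show (t : ℚ) ^ 2 + (α * f₁) ^ 2 * (T : ℚ) ^ 2 = (t : ℚ) ^ 2 + (α * (f₁ * T)) ^ 2 by ring,
        show -(t : ℚ) ^ 2 + (α * f₁) ^ 2 * (T : ℚ) ^ 2 = -(t : ℚ) ^ 2 + (α * (f₁ * T)) ^ 2 by ring,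
        mul_comm (g₂ : ℚ) (T : ℚ)]
      exact h4
    · have e1 : (z - y) * (2 * z + y) ≤ x * (3 * x) := Nat.mul_le_mul (by omega) (by omega)
      have e2 : x * (z - y) ≤ x * x := Nat.mul_le_mul_left _ (by omega)
      nlinarith
  · intro f₂ g₁ g₂ F hF
    rcases F.eq_empty_or_nonempty with h0 | ⟨T₀, hT₀⟩
    · rw [h0]; simp
    obtain ⟨t, ht2, htq, hgt, hco, p1, p2, p3, p4, -⟩ := hF T₀ hT₀
    refine (roots2 ((t : ℚ) ^ 2) ((α * f₂) ^ 2) (-(t : ℚ) ^ 2) ((α * f₂) ^ 2)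
      (((f₂ : ℚ) * g₂) ^ y) (g₁ : ℚ) z (z - y) (y * (x - z)) (x * (z - y))
      (Nat.mul_pos hy (by omega)) ?_ F ?_).trans ?_
    · intro h4
      have h5 : (t ^ 2) ^ z = (f₂ * g₂) ^ y := by exact_mod_cast h4
      have h6 : f₂ = 1 := by
        have h7 : f₂ ∣ (t ^ 2) ^ z := by
          rw [h5]
          exact (Dvd.intro _ rfl).trans (dvd_pow_self _ hy.ne')
        rw [← pow_mul] at h7
        have h8 : Nat.Coprime f₂ (t ^ (2 * z)) := Nat.Coprime.pow_right _ hco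
        exact Nat.Coprime.eq_one_of_dvd h8 h7
      rw [h6, one_mul] at h5
      have h7 : g₂ ^ y ≤ (2 * t) ^ y := Nat.pow_le_pow_left hgt _
      have h8 : (2 * t) ^ y < (2 * t) ^ z := Nat.pow_lt_pow_right (by omega) hyz
      have h9 : (2 * t) ^ z ≤ (t ^ 2) ^ z := Nat.pow_le_pow_left (by nlinarith) _
      omega
    · intro T hT
      obtain ⟨t', -, htq', -, -, -, -, -, -, h4⟩ := hF T hT
      rw [← htq] at h4
      rw [show (t : ℚ) ^ 2 + (α * f₂) ^ 2 * (T : ℚ) ^ 2 = (t : ℚ) ^ 2 + (α * (T * f₂)) ^ 2 by ring,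
        show -(t : ℚ) ^ 2 + (α * f₂) ^ 2 * (T : ℚ) ^ 2 = -(t : ℚ) ^ 2 + (α * (T * f₂)) ^ 2 by ring,
        mul_comm (g₁ : ℚ) (T : ℚ)]
      exact h4
    · have e1 : (z - y) * (2 * z) ≤ x * (2 * x) := Nat.mul_le_mul (by omega) (by omega)
      have e2 : x * (z - y) ≤ x * x := Nat.mul_le_mul_left _ (by omega)
      have e3 : y * (x - z) ≤ x * x := Nat.mul_le_mul (by omega) (by omega)
      nlinarith

/-- exponents `y < z < x`, `s` even -/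
theorem countB_even (N x y z : ℕ) (hy : 0 < y) (hyz : y < z) (hzx : z < x) (E : Finset (ℕ × ℕ))
    (hE : ∀ e ∈ E, Gen e.1 e.2 ∧ e.1 ≤ N ∧ 2 ≤ e.2 ∧ Even e.1 ∧ ∃ b₁ b₂ : ℕ,
      2 * e.1 * e.2 = b₁ * b₂ ∧ Nat.Coprime b₁ b₂ ∧ 2 ≤ b₁ ∧ 0 < b₂ ∧
      (((e.1 ^ 2 + e.2 ^ 2 : ℕ) : ℚ) ^ z - (b₂ : ℚ) ^ y) ^ (z - y) =
        (b₁ : ℚ) ^ (y * (x - z)) * ((e.1 ^ 2 - e.2 ^ 2 : ℕ) : ℚ) ^ (x * (z - y))) :
    E.card ≤ 2 * (((Nat.sqrt (2 * N) + 1) * (Pr (2 * N)).card) * (5 * x ^ 2)) := by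
  refine countB_aux (2 * N) x y z (1 / 2) 1 hy hyz hzx E (fun e => (2 * e.1, e.2)) ?_ ?_
  · rintro ⟨s, t⟩ h1 ⟨s', t'⟩ h2 h3
    simp only [Prod.mk.injEq] at h3 ⊢
    omega
  · rintro ⟨s, t⟩ he
    obtain ⟨hg, hs, ht2, hev, b₁, b₂, hb, hcop, hb1, hb2, heq⟩ := hE _ he
    simp only at hg hs ht2 hev hb heq ⊢
    have htodd : Odd t := by
      have h1 := hg.odd
      rw [Nat.odd_add'] at h1
      exact h1.2 hev
    have hcop' : Nat.Coprime (2 * s) t :=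
      Nat.Coprime.mul_left (Nat.coprime_two_left.2 htodd) hg.cop
    have hprod : b₁ * b₂ = (2 * s) * t := by rw [← hb]
    obtain ⟨f₁, f₂, g₁, g₂, hp, hq, hm, hn⟩ := refine4 hcop hcop' hprod
    have hpos := hg.pos
    have hlt := hg.lt
    have hf1 : 0 < f₁ := Nat.pos_of_ne_zero (by rintro rfl; omega)
    have hf2 : 0 < f₂ := Nat.pos_of_ne_zero (by rintro rfl; omega)
    have hg1 : 0 < g₁ := Nat.pos_of_ne_zero (by rintro rfl; omega)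
    have hg2 : 0 < g₂ := Nat.pos_of_ne_zero (by rintro rfl; omega)
    have hg2t : g₂ ≤ t := by rw [hq]; exact Nat.le_mul_of_pos_left _ hg1
    refine ⟨f₁, f₂, g₁, g₂, hf1, hf2, hg1, hg2, by rw [hp, hq], by omega, by omega, ?_⟩
    have htq : (t : ℚ) = 1 * (g₁ * g₂) := by
      rw [one_mul]
      exact_mod_cast hq
    have hsq : (s : ℚ) = 1 / 2 * (f₁ * f₂) := by
      have : ((2 * s : ℕ) : ℚ) = ((f₁ * f₂ : ℕ) : ℚ) := by rw [hp]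
      push_cast at this
      linarith
    refine ⟨t, ht2, htq, by omega, ?_, hf1, hf2, hg1, hg2, ?_⟩
    · exact Nat.Coprime.coprime_dvd_left (by rw [hp]; exact Dvd.intro_left _ rfl) hcop'
    · rw [← htq, ← hsq]
      have hts : t ^ 2 ≤ s ^ 2 := Nat.pow_le_pow_left hlt.le 2
      rw [hm, hn] at heq
      push_cast [Nat.cast_sub hts] at heq
      rw [show (t : ℚ) ^ 2 + (s : ℚ) ^ 2 = (s : ℚ) ^ 2 + t ^ 2 by ring,
        show -(t : ℚ) ^ 2 + (s : ℚ) ^ 2 = (s : ℚ) ^ 2 - t ^ 2 by ring]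
      exact heq

/-- exponents `y < z < x`, `t` even -/
theorem countB_odd (N x y z : ℕ) (hy : 0 < y) (hyz : y < z) (hzx : z < x) (E : Finset (ℕ × ℕ))
    (hE : ∀ e ∈ E, Gen e.1 e.2 ∧ e.1 ≤ N ∧ 2 ≤ e.2 ∧ ¬ Even e.1 ∧ ∃ b₁ b₂ : ℕ,
      2 * e.1 * e.2 = b₁ * b₂ ∧ Nat.Coprime b₁ b₂ ∧ 2 ≤ b₁ ∧ 0 < b₂ ∧
      (((e.1 ^ 2 + e.2 ^ 2 : ℕ) : ℚ) ^ z - (b₂ : ℚ) ^ y) ^ (z - y) =
        (b₁ : ℚ) ^ (y * (x - z)) * ((e.1 ^ 2 - e.2 ^ 2 : ℕ) : ℚ) ^ (x * (z - y))) :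
    E.card ≤ 2 * (((Nat.sqrt (2 * N) + 1) * (Pr (2 * N)).card) * (5 * x ^ 2)) := by
  refine countB_aux (2 * N) x y z 1 (1 / 2) hy hyz hzx E (fun e => (e.1, 2 * e.2)) ?_ ?_
  · rintro ⟨s, t⟩ h1 ⟨s', t'⟩ h2 h3
    simp only [Prod.mk.injEq] at h3 ⊢
    omega
  · rintro ⟨s, t⟩ he
    obtain ⟨hg, hs, ht2, hev, b₁, b₂, hb, hcop, hb1, hb2, heq⟩ := hE _ he
    simp only at hg hs ht2 hev hb heq ⊢
    rw [Nat.not_even_iff_odd] at hev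
    have hcop' : Nat.Coprime s (2 * t) :=
      Nat.Coprime.mul_right (Nat.coprime_two_right.2 hev) hg.cop
    have hprod : b₁ * b₂ = s * (2 * t) := by rw [← hb]; ring
    obtain ⟨f₁, f₂, g₁, g₂, hp, hq, hm, hn⟩ := refine4 hcop hcop' hprod
    have hpos := hg.pos
    have hlt := hg.lt
    have hf1 : 0 < f₁ := Nat.pos_of_ne_zero (by rintro rfl; omega)
    have hf2 : 0 < f₂ := Nat.pos_of_ne_zero (by rintro rfl; omega)
    have hg1 : 0 < g₁ := Nat.pos_of_ne_zero (by rintro rfl; omega)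
    have hg2 : 0 < g₂ := Nat.pos_of_ne_zero (by rintro rfl; omega)
    have hg2t : g₂ ≤ 2 * t := by rw [hq]; exact Nat.le_mul_of_pos_left _ hg1
    refine ⟨f₁, f₂, g₁, g₂, hf1, hf2, hg1, hg2, by rw [hp, hq], by omega, by omega, ?_⟩
    have htq : (t : ℚ) = 1 / 2 * (g₁ * g₂) := by
      have : ((2 * t : ℕ) : ℚ) = ((g₁ * g₂ : ℕ) : ℚ) := by rw [hq]
      push_cast at this
      linarith
    have hsq : (s : ℚ) = 1 * (f₁ * f₂) := by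
      rw [one_mul]
      exact_mod_cast hp
    refine ⟨t, ht2, htq, hg2t, ?_, hf1, hf2, hg1, hg2, ?_⟩
    · apply Nat.Coprime.coprime_dvd_right (Dvd.intro_left 2 rfl)
      exact Nat.Coprime.coprime_dvd_left (by rw [hp]; exact Dvd.intro_left _ rfl) hcop'
    · rw [← htq, ← hsq]
      have hts : t ^ 2 ≤ s ^ 2 := Nat.pow_le_pow_left hlt.le 2
      rw [hm, hn] at heq
      push_cast [Nat.cast_sub hts] at heq
      rw [show (t : ℚ) ^ 2 + (s : ℚ) ^ 2 = (s : ℚ) ^ 2 + t ^ 2 by ring,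
        show -(t : ℚ) ^ 2 + (s : ℚ) ^ 2 = (s : ℚ) ^ 2 - t ^ 2 by ring]
      exact heq

end Pool.Agent.R480.Jes
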