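import Pool.Agent.R480.Jes.Split
import Pool.Agent.Y902.FB.Exp

/-!
# Bounds for the exponents of an exceptional solution
-/

set_option autoImplicit false

namespace Pool.Agent.R480.Jes

open Pool.Agent.Y902.FB Pool.Agent.TH888.B1

theorem pow_growth (κ : ℕ) : ∃ C : ℕ, ∀ L : ℕ, (4 * L) ^ κ ≤ C * 2 ^ L := by
  obtain ⟨L₀, h⟩ := growth (4 ^ κ) κ
  refine ⟨(4 * L₀) ^ κ + 1, fun L => ?_⟩
  rcases Nat.lt_or_ge L₀ L with h1 | h1
  · have h2 : ¬ 2 ^ L ≤ 4 ^ κ * L ^ κ := fun h3 => by have := h L h3; omega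
    rw [mul_pow]
    push Not at h2
    calc 4 ^ κ * L ^ κ ≤ 1 * 2 ^ L := by omega
      _ ≤ ((4 * L₀) ^ κ + 1) * 2 ^ L := Nat.mul_le_mul_right _ (by omega)
  · calc (4 * L) ^ κ ≤ (4 * L₀) ^ κ := Nat.pow_le_pow_left (by omega) _
      _ ≤ ((4 * L₀) ^ κ + 1) * 1 := by omega
      _ ≤ ((4 * L₀) ^ κ + 1) * 2 ^ L := Nat.mul_le_mul_left _ Nat.one_le_two_pow

/-- bootstrapping -/
theorem boot (C κ : ℕ) : ∃ C' : ℕ, ∀ S₀ Q X : ℕ, 1 ≤ S₀ → 1 ≤ Q →
    X ≤ C * Q * (S₀ + 2 * (Nat.log 2 X + 1)) ^ κ → X ≤ C' * Q ^ 2 * S₀ ^ κ := by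
  obtain ⟨C₂, hC₂⟩ := pow_growth (2 * κ)
  refine ⟨C * 2 ^ κ + 2 * C ^ 2 * C₂, fun S₀ Q X hS hQ hX => ?_⟩
  obtain ⟨L, hL⟩ : ∃ L, L = Nat.log 2 X + 1 := ⟨_, rfl⟩
  rw [← hL] at hX
  have hQ2 : Q ≤ Q ^ 2 := Nat.le_self_pow (by norm_num) _
  have hS1 : 1 ≤ S₀ ^ κ := Nat.one_le_pow _ _ hS
  rcases Nat.eq_zero_or_pos X with h0 | h0
  · rw [h0]; exact Nat.zero_le _
  rcases Nat.lt_or_ge S₀ (2 * L) with h1 | h1
  · have h2 : X ≤ C * Q * (4 * L) ^ κ :=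
      hX.trans (Nat.mul_le_mul_left _ (Nat.pow_le_pow_left (by omega) _))
    have h3 : 2 ^ L ≤ 2 * X := by
      rw [hL, pow_succ]
      have := Nat.pow_log_le_self 2 (by omega : X ≠ 0)
      omega
    have h4 : X * X ≤ (2 * C ^ 2 * C₂ * Q ^ 2) * X := by
      calc X * X ≤ (C * Q * (4 * L) ^ κ) * (C * Q * (4 * L) ^ κ) := Nat.mul_le_mul h2 h2
        _ = C ^ 2 * Q ^ 2 * (4 * L) ^ (2 * κ) := by
          rw [mul_comm 2 κ, pow_mul]; ring
        _ ≤ C ^ 2 * Q ^ 2 * (C₂ * 2 ^ L) := Nat.mul_le_mul_left _ (hC₂ L)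
        _ ≤ C ^ 2 * Q ^ 2 * (C₂ * (2 * X)) := Nat.mul_le_mul_left _ (Nat.mul_le_mul_left _ h3)
        _ = _ := by ring
    have h5 : X ≤ 2 * C ^ 2 * C₂ * Q ^ 2 := Nat.le_of_mul_le_mul_right h4 h0
    calc X ≤ 2 * C ^ 2 * C₂ * Q ^ 2 := h5
      _ ≤ (C * 2 ^ κ + 2 * C ^ 2 * C₂) * Q ^ 2 := Nat.mul_le_mul_right _ (by omega)
      _ ≤ _ := Nat.le_mul_of_pos_right _ hS1
  · calc X ≤ C * Q * (2 * S₀) ^ κ :=
        hX.trans (Nat.mul_le_mul_left _ (Nat.pow_le_pow_left (by omega) _))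
      _ = C * 2 ^ κ * Q * S₀ ^ κ := by rw [mul_pow]; ring
      _ ≤ (C * 2 ^ κ + 2 * C ^ 2 * C₂) * Q ^ 2 * S₀ ^ κ :=
        Nat.mul_le_mul_right _ (Nat.mul_le_mul (by omega) hQ2)

/-- three `2`-adic logarithms -/
theorem baker3 : ∃ C κ : ℕ, ∀ S : ℕ, 2 ≤ S →
    ∀ a b c i j l M : ℕ, ¬ 2 ∣ a → ¬ 2 ∣ b → ¬ 2 ∣ c → a ≤ 2 ^ S → b ≤ 2 ^ S → c ≤ 2 ^ S →
      i ≤ 2 ^ S → j ≤ 2 ^ S → l ≤ 2 ^ S → a ^ i * b ^ j ≠ c ^ l →
      ((2 : ℕ) : ℤ) ^ M ∣ (a : ℤ) ^ i * (b : ℤ) ^ j - (c : ℤ) ^ l → M ≤ C * S ^ κ := by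
  obtain ⟨C, κ, hC⟩ := Pool.Agent.TH888.W2.weakBaker_all 3
  refine ⟨C, κ, ?_⟩
  intro S hpS a b c i j l M hpa hpb hpc ha hb hc hi hj hl hne hdvd
  obtain ⟨p, hp2⟩ : ∃ p : ℕ, p = 2 := ⟨_, rfl⟩
  have hp : Fact p.Prime := ⟨by rw [hp2]; exact Nat.prime_two⟩
  rw [← hp2] at hpS hpa hpb hpc hdvd
  have hco : ∀ n : ℕ, ¬ p ∣ n → Nat.Coprime n (p ^ M) := fun n hn =>
    (((Nat.Prime.coprime_iff_not_dvd hp.out).mpr hn).symm).pow_right M
  have ha0 : 0 < a := Nat.pos_of_ne_zero (by rintro rfl; exact hpa (dvd_zero p))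
  have hb0 : 0 < b := Nat.pos_of_ne_zero (by rintro rfl; exact hpb (dvd_zero p))
  have hc0 : 0 < c := Nat.pos_of_ne_zero (by rintro rfl; exact hpc (dvd_zero p))
  refine hC p S hpS ![a, b, c] ![(i : ℤ), (j : ℤ), -(l : ℤ)] M
    ![ZMod.unitOfCoprime a (hco a hpa), ZMod.unitOfCoprime b (hco b hpb),
      ZMod.unitOfCoprime c (hco c hpc)] ?_ ?_ ?_ ?_ ?_ ?_
  · intro t
    fin_cases t <;> simp [ZMod.coe_unitOfCoprime]
  · intro t
    fin_cases t <;> simp [ha0, hb0, hc0]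
  · intro t
    fin_cases t <;> simp <;> assumption
  · intro t
    fin_cases t
    · simp only [Fin.zero_eta, Matrix.cons_val_zero, Nat.abs_cast]
      exact_mod_cast hi
    · simp only [Fin.mk_one, Matrix.cons_val_one, Nat.abs_cast, Matrix.cons_val_zero]
      exact_mod_cast hj
    · change |(-(l : ℤ))| ≤ 2 ^ S
      rw [abs_neg, Nat.abs_cast]
      exact_mod_cast hl
  · simp only [Fin.prod_univ_three, Matrix.cons_val_zero, Matrix.cons_val_one, Matrix.cons_val]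
    intro h
    apply hne
    have hc' : (c : ℚ) ^ l ≠ 0 := pow_ne_zero _ (by exact_mod_cast hc0.ne')
    rw [zpow_neg, zpow_natCast, zpow_natCast, zpow_natCast, mul_inv_eq_one₀ hc'] at h
    exact_mod_cast h
  · simp only [Fin.prod_univ_three, Matrix.cons_val_zero, Matrix.cons_val_one, Matrix.cons_val]
    rw [zpow_neg, zpow_natCast, zpow_natCast, zpow_natCast, mul_inv_eq_one]
    apply Units.ext
    rw [Units.val_mul, Units.val_pow_eq_pow_val, Units.val_pow_eq_pow_val, Units.val_pow_eq_pow_val,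
      ZMod.coe_unitOfCoprime, ZMod.coe_unitOfCoprime, ZMod.coe_unitOfCoprime]
    have h1 : (((p ^ M : ℕ) : ℤ)) ∣ (a : ℤ) ^ i * (b : ℤ) ^ j - (c : ℤ) ^ l := by
      exact_mod_cast hdvd
    rw [← ZMod.intCast_zmod_eq_zero_iff_dvd] at h1
    push_cast at h1
    exact sub_eq_zero.mp h1

lemma le_two_pow_log {x T : ℕ} (hT : Nat.log 2 x + 1 ≤ T) : x ≤ 2 ^ T :=
  (Nat.lt_pow_succ_log_self (by norm_num) x).le.trans (Nat.pow_le_pow_right (by norm_num) hT)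

lemma sq_le_two_pow_log {x T : ℕ} (hT : 2 * (Nat.log 2 x + 1) ≤ T) : x * x ≤ 2 ^ T := by
  have h1 := (Nat.lt_pow_succ_log_self (by norm_num : 1 < 2) x).le
  calc x * x ≤ 2 ^ (Nat.log 2 x + 1) * 2 ^ (Nat.log 2 x + 1) := Nat.mul_le_mul h1 h1
    _ = 2 ^ (2 * (Nat.log 2 x + 1)) := by rw [← pow_add]; congr 1; ring
    _ ≤ 2 ^ T := Nat.pow_le_pow_right (by norm_num) hT

/-- the case `x < z < y` -/
theorem expA : ∃ C κ : ℕ, ∀ S₀ : ℕ, 2 ≤ S₀ → ∀ a b c k x y z : ℕ, PT a b c → c ≤ 2 ^ S₀ →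
    2 ≤ k → 0 < x → x < z → z < y → (k * a) ^ x + (k * b) ^ y = (k * c) ^ z →
    y ≤ C * S₀ ^ κ := by
  obtain ⟨C, κ, hC⟩ := baker_even
  obtain ⟨C', hC'⟩ := boot C κ
  refine ⟨C', κ, ?_⟩
  intro S₀ hS₀ a b c k x y z h hcS hk hx hxz hzy heq
  have ha3 := h.a3
  obtain ⟨a₁, a₂, ha, hcop, ha1, ha2, -, he2⟩ := split h.hac (by omega) hk hx hxz hzy heq
  have h2 : y ≤ C * 1 * (S₀ + 2 * (Nat.log 2 y + 1)) ^ κ := by
    rw [mul_one]
    obtain ⟨S, hS⟩ : ∃ S, S = S₀ + 2 * (Nat.log 2 y + 1) := ⟨_, rfl⟩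
    rw [← hS]
    have hy : y ≤ 2 ^ S := le_two_pow_log (by omega)
    have h2S : (2 : ℕ) ^ S₀ ≤ 2 ^ S := Nat.pow_le_pow_right (by norm_num) (by omega)
    have haa : a₂ ≤ a := by rw [ha]; exact Nat.le_mul_of_pos_left _ (by omega)
    have hac := h.a_lt
    refine hC S (by omega) a₂ c x z y ?_ h.codd (by omega) (by omega) (by omega) (by omega) ?_ ?_
    · intro h3
      exact h.aodd (by rw [ha]; exact Dvd.dvd.mul_left h3 _)
    · intro h3
      have hb0 := h.b0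
      have : 0 < k ^ (y - z) * b ^ y := by positivity
      omega
    · have h4 : (a₂ : ℤ) ^ x - (c : ℤ) ^ z = -((k : ℤ) ^ (y - z)) * (b : ℤ) ^ y := by
        have : ((a₂ ^ x + k ^ (y - z) * b ^ y : ℕ) : ℤ) = ((c ^ z : ℕ) : ℤ) := by rw [he2]
        push_cast at this
        linear_combination this
      rw [h4]
      apply Dvd.dvd.mul_left
      apply pow_dvd_pow_of_dvd
      exact_mod_cast (dvd_trans (by norm_num) h.b4 : 2 ∣ b)
  have := hC' S₀ 1 y (by omega) le_rfl h2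
  simpa using this

/-- the case `y < z < x` -/
theorem expB : ∃ C κ : ℕ, ∀ S₀ : ℕ, 2 ≤ S₀ → ∀ a b c k x y z Q : ℕ, PT a b c → c ≤ 2 ^ S₀ →
    1 ≤ Q → 2 * a ^ Q ≤ c ^ Q → 2 ≤ k → 0 < y → y < z → z < x →
    (k * a) ^ x + (k * b) ^ y = (k * c) ^ z → x ≤ C * Q ^ 2 * S₀ ^ κ := by
  obtain ⟨C₁, κ₁, hC₁⟩ := baker_even
  obtain ⟨C₂, κ₂, hC₂⟩ := baker3
  obtain ⟨C', hC'⟩ := boot (4 * (C₁ + C₂ + 1)) (κ₁ + κ₂ + 1)
  refine ⟨C', κ₁ + κ₂ + 1, ?_⟩
  intro S₀ hS₀ a b c k x y z Q h hcS hQ hQ2 hk hy hyz hzx heq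
  have ha3 := h.a3
  have hb4 := h.b4'
  have hac := h.a_lt
  have hbc := h.b_lt
  have heq' : (k * b) ^ y + (k * a) ^ x = (k * c) ^ z := by rw [← heq]; ring
  obtain ⟨b₁, b₂, hb, hcop, hb1, hb2, hkb, he2⟩ := split h.hbc (by omega) hk hy hyz hzx heq'
  have hbb1 : b₁ ≤ b := by rw [hb]; exact Nat.le_mul_of_pos_right _ hb2
  have hbb2 : b₂ ≤ b := by rw [hb]; exact Nat.le_mul_of_pos_left _ (by omega)
  apply hC' S₀ Q x (by omega) hQ
  obtain ⟨S, hS⟩ : ∃ S, S = S₀ + 2 * (Nat.log 2 x + 1) := ⟨_, rfl⟩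
  rw [← hS]
  have hx2 : x ≤ 2 ^ S := le_two_pow_log (by omega)
  have hxx : x * x ≤ 2 ^ S := sq_le_two_pow_log (by omega)
  have h2S : (2 : ℕ) ^ S₀ ≤ 2 ^ S := Nat.pow_le_pow_right (by norm_num) (by omega)
  have hS1 : 1 ≤ S := by omega
  -- `x < 2 z`
  have hx2z : x < 2 * z := by
    have h1 : (k * a) ^ x < (k * c) ^ z := by
      have : 0 < (k * b) ^ y := by positivity
      omega
    have h3 : k * c < (k * a) ^ 2 := by
      have := h.ca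
      calc k * c < k * a ^ 2 := Nat.mul_lt_mul_of_pos_left this (by omega)
        _ ≤ k * (k * a ^ 2) := Nat.mul_le_mul_left _ (Nat.le_mul_of_pos_left _ (by omega))
        _ = (k * a) ^ 2 := by ring
    have h4 : (k * a) ^ x < (k * a) ^ (2 * z) := by
      calc (k * a) ^ x < (k * c) ^ z := h1
        _ ≤ ((k * a) ^ 2) ^ z := Nat.pow_le_pow_left h3.le _
        _ = (k * a) ^ (2 * z) := by rw [pow_mul]
    exact (Nat.pow_lt_pow_iff_right (by nlinarith)).1 h4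
  by_cases hk2 : 2 ∣ k
  · -- `k` even
    have hb1e : 2 ∣ b₁ := by
      apply Nat.prime_two.dvd_of_dvd_pow (n := y)
      rw [hkb]
      exact dvd_pow hk2 (by omega)
    have hb2o : ¬ 2 ∣ b₂ := by
      intro h3
      exact absurd (Nat.eq_one_of_dvd_coprimes hcop hb1e h3) (by norm_num)
    have : Fact (Nat.Prime 2) := ⟨Nat.prime_two⟩
    obtain ⟨e, he⟩ : ∃ e, e = padicValNat 2 k := ⟨_, rfl⟩
    have hek : 2 ^ e ∣ k := by rw [he]; exact pow_padicValNat_dvd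
    have he1 : 1 ≤ e := by
      rw [he, ← padicValNat_dvd_iff_le (by omega), pow_one]
      exact hk2
    have heu : e * (x - z) ≤ C₁ * S ^ κ₁ := by
      refine hC₁ S (by omega) b₂ c y z (e * (x - z)) hb2o h.codd (by omega) (by omega) (by omega)
        (by omega) ?_ ?_
      · intro h3
        have : 0 < k ^ (x - z) * a ^ x := by positivity
        omega
      · have h4 : (b₂ : ℤ) ^ y - (c : ℤ) ^ z = (k : ℤ) ^ (x - z) * -((a : ℤ) ^ x) := by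
          have : ((b₂ ^ y + k ^ (x - z) * a ^ x : ℕ) : ℤ) = ((c ^ z : ℕ) : ℤ) := by rw [he2]
          push_cast at this
          linear_combination this
        rw [h4]
        apply Dvd.dvd.mul_right
        rw [pow_mul]
        apply pow_dvd_pow_of_dvd
        exact_mod_cast hek
    have hyD : y ≤ (z - y) * e := by
      have h3 : padicValNat 2 (b₁ ^ y) = padicValNat 2 (k ^ (z - y)) := by rw [hkb]
      rw [padicValNat.pow, padicValNat.pow, ← he] at h3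
      have h4 : 1 ≤ padicValNat 2 b₁ := by
        rw [← padicValNat_dvd_iff_le (by omega), pow_one]
        exact hb1e
      calc y = y * 1 := (mul_one _).symm
        _ ≤ y * padicValNat 2 b₁ := Nat.mul_le_mul_left _ h4
        _ = _ := h3
    have hkle : k ≤ 2 ^ (S₀ * e) := by
      have h3 : k ^ (z - y) ≤ (2 ^ (S₀ * e)) ^ (z - y) := by
        calc k ^ (z - y) = b₁ ^ y := hkb.symm
          _ ≤ (2 ^ S₀) ^ y := Nat.pow_le_pow_left (by omega) _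
          _ ≤ (2 ^ S₀) ^ ((z - y) * e) := Nat.pow_le_pow_right (by positivity) hyD
          _ = _ := by rw [← pow_mul, ← pow_mul]; congr 1; ring
      exact (Nat.pow_le_pow_iff_left (by omega)).1 h3
    have hsz : (k * c) ^ z ≤ 2 * (k * a) ^ x := by
      have h3 : 2 * (k * b) ^ y ≤ (k * c) ^ z := by
        calc 2 * (k * b) ^ y ≤ (k * c) * (k * c) ^ (z - 1) := by
              apply Nat.mul_le_mul (by nlinarith)
              calc (k * b) ^ y ≤ (k * c) ^ y := Nat.pow_le_pow_left (Nat.mul_le_mul_left _ hbc.le) _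
                _ ≤ (k * c) ^ (z - 1) := Nat.pow_le_pow_right (by nlinarith) (by omega)
          _ = (k * c) ^ z := by rw [← pow_succ']; congr 1; omega
      omega
    obtain ⟨B, hB⟩ : ∃ B, B = 1 + S₀ * (e * (x - z)) + S₀ * (x - z) := ⟨_, rfl⟩
    have hcz : c ^ z ≤ 2 ^ B * a ^ z := by
      have h3 : k ^ z * c ^ z ≤ k ^ z * (2 ^ B * a ^ z) := by
        calc k ^ z * c ^ z = (k * c) ^ z := by rw [mul_pow]
          _ ≤ 2 * (k * a) ^ x := hsz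
          _ = 2 * (k ^ z * k ^ (x - z)) * (a ^ z * a ^ (x - z)) := by
            rw [mul_pow, ← pow_add, ← pow_add, show z + (x - z) = x by omega]; ring
          _ ≤ 2 * (k ^ z * (2 ^ (S₀ * e)) ^ (x - z)) * (a ^ z * (2 ^ S₀) ^ (x - z)) := by
            gcongr
            omega
          _ = k ^ z * (2 ^ B * a ^ z) := by
            rw [hB, pow_add, pow_add, pow_one, ← pow_mul, ← pow_mul, mul_assoc S₀ e]; ring
      exact Nat.le_of_mul_le_mul_left h3 (by positivity)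
    have hzB : z < Q * (B + 1) := by
      by_contra hcon
      push Not at hcon
      have h3 : (2 * a ^ Q) ^ (B + 1) * a ^ (z - Q * (B + 1)) ≤
          (c ^ Q) ^ (B + 1) * c ^ (z - Q * (B + 1)) :=
        Nat.mul_le_mul (Nat.pow_le_pow_left hQ2 _) (Nat.pow_le_pow_left hac.le _)
      have h4 : (c ^ Q) ^ (B + 1) * c ^ (z - Q * (B + 1)) = c ^ z := by
        rw [← pow_mul, ← pow_add]; congr 1; omega
      have h5 : (2 * a ^ Q) ^ (B + 1) * a ^ (z - Q * (B + 1)) = 2 ^ (B + 1) * a ^ z := by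
        rw [mul_pow, ← pow_mul, mul_assoc, ← pow_add]; congr 2; omega
      rw [h4, h5] at h3
      have h6 : 0 < a ^ z := by positivity
      have h7 : 2 ^ B * a ^ z < 2 ^ (B + 1) * a ^ z := by
        apply Nat.mul_lt_mul_of_pos_right _ h6
        exact Nat.pow_lt_pow_right (by norm_num) (by omega)
      omega
    have hBle : B + 1 ≤ 2 * (C₁ + 1) * S ^ (κ₁ + 1) := by
      have h3 : x - z ≤ e * (x - z) := Nat.le_mul_of_pos_left _ (by omega)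
      have h4 : S₀ * (e * (x - z)) ≤ S * (C₁ * S ^ κ₁) := Nat.mul_le_mul (by omega) heu
      have h5 : S₀ * (x - z) ≤ S * (C₁ * S ^ κ₁) := Nat.mul_le_mul (by omega) (h3.trans heu)
      have h6 : 1 ≤ S ^ (κ₁ + 1) := Nat.one_le_pow _ _ hS1
      have h7 : S * (C₁ * S ^ κ₁) = C₁ * S ^ (κ₁ + 1) := by ring
      rw [h7] at h4 h5
      have h8 : 2 * (C₁ + 1) * S ^ (κ₁ + 1) = 2 * (C₁ * S ^ (κ₁ + 1)) + 2 * S ^ (κ₁ + 1) := by ring
      omega
    calc x ≤ 2 * (Q * (B + 1)) := by omega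
      _ ≤ 2 * (Q * (2 * (C₁ + 1) * S ^ (κ₁ + 1))) :=
        Nat.mul_le_mul_left _ (Nat.mul_le_mul_left _ hBle)
      _ = 4 * (C₁ + 1) * Q * S ^ (κ₁ + 1) := by ring
      _ ≤ 4 * (C₁ + C₂ + 1) * Q * S ^ (κ₁ + κ₂ + 1) := by
        apply Nat.mul_le_mul
        · exact Nat.mul_le_mul_right _ (by omega)
        · exact Nat.pow_le_pow_right hS1 (by omega)
  · -- `k` odd
    have hb1o : ¬ 2 ∣ b₁ := by
      intro h3
      apply hk2
      apply Nat.prime_two.dvd_of_dvd_pow (n := z - y)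
      rw [← hkb]
      exact dvd_pow h3 (by omega)
    have hb2e : 2 ∣ b₂ := by
      have h3 : 2 ∣ b₁ * b₂ := by rw [← hb]; exact dvd_trans (by norm_num) h.b4
      exact (Nat.prime_two.dvd_mul.1 h3).resolve_left hb1o
    have hyS : y ≤ C₂ * S ^ κ₂ := by
      refine hC₂ S (by omega) b₁ a c (y * (x - z)) (x * (z - y)) (z * (z - y)) y hb1o h.aodd
        h.codd (by omega) (by omega) (by omega) ?_ ?_ ?_ ?_ ?_
      · exact (Nat.mul_le_mul (by omega) (by omega)).trans hxx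
      · exact (Nat.mul_le_mul (by omega) (by omega)).trans hxx
      · exact (Nat.mul_le_mul (by omega) (by omega)).trans hxx
      · intro h3
        have h4 : a ∣ c ^ (z * (z - y)) := by
          rw [← h3]
          apply Dvd.dvd.mul_left
          apply dvd_pow_self
          have : 0 < x * (z - y) := Nat.mul_pos (by omega) (by omega)
          omega
        have h5 : Nat.Coprime a (c ^ (z * (z - y))) := Nat.Coprime.pow_right _ h.hac
        have h6 := Nat.eq_one_of_dvd_coprimes h5 (dvd_refl a) h4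
        omega
      · have h4 : (k : ℤ) ^ (x - z) * (a : ℤ) ^ x - (c : ℤ) ^ z = -((b₂ : ℤ) ^ y) := by
          have : ((b₂ ^ y + k ^ (x - z) * a ^ x : ℕ) : ℤ) = ((c ^ z : ℕ) : ℤ) := by rw [he2]
          push_cast at this
          linear_combination this
        have h5 : (b₁ : ℤ) ^ (y * (x - z)) * (a : ℤ) ^ (x * (z - y)) - (c : ℤ) ^ (z * (z - y)) =
            ((k : ℤ) ^ (x - z) * (a : ℤ) ^ x) ^ (z - y) - ((c : ℤ) ^ z) ^ (z - y) := by
          have h6 : (b₁ : ℤ) ^ y = (k : ℤ) ^ (z - y) := by exact_mod_cast hkb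
          rw [pow_mul, h6, mul_pow, ← pow_mul, ← pow_mul, ← pow_mul, ← pow_mul,
            mul_comm (z - y) (x - z)]
        rw [h5]
        refine dvd_trans ?_ (sub_dvd_pow_sub_pow _ _ _)
        rw [h4, dvd_neg]
        apply pow_dvd_pow_of_dvd
        exact_mod_cast hb2e
    have hD : z - y ≤ S₀ * y := by
      have h3 : 2 ^ (z - y) ≤ 2 ^ (S₀ * y) := by
        calc 2 ^ (z - y) ≤ k ^ (z - y) := Nat.pow_le_pow_left hk _
          _ = b₁ ^ y := hkb.symm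
          _ ≤ (2 ^ S₀) ^ y := Nat.pow_le_pow_left (by omega) _
          _ = _ := by rw [← pow_mul]
      exact (Nat.pow_le_pow_iff_right (by norm_num)).1 h3
    have h3 : y ≤ S₀ * y := Nat.le_mul_of_pos_left _ (by omega)
    have h4 : S₀ * y ≤ S * (C₂ * S ^ κ₂) := Nat.mul_le_mul (by omega) hyS
    calc x ≤ 4 * (S₀ * y) := by omega
      _ ≤ 4 * (S * (C₂ * S ^ κ₂)) := Nat.mul_le_mul_left _ h4
      _ = 4 * C₂ * S ^ (κ₂ + 1) := by ring
      _ ≤ 4 * (C₁ + C₂ + 1) * Q * S ^ (κ₁ + κ₂ + 1) := by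
        apply Nat.mul_le_mul
        · calc 4 * C₂ ≤ 4 * (C₁ + C₂ + 1) := by omega
            _ ≤ _ := Nat.le_mul_of_pos_right _ (by omega)
        · exact Nat.pow_le_pow_right hS1 (by omega)

/-- the triple itself -/
theorem expOne : ∃ C κ : ℕ, ∀ S₀ : ℕ, 2 ≤ S₀ → ∀ a b c x y z : ℕ, PT a b c → c ≤ 2 ^ S₀ →
    0 < x → 0 < y → 0 < z → a ^ x + b ^ y = c ^ z →
    x ≤ C * S₀ ^ κ ∧ y ≤ C * S₀ ^ κ ∧ z ≤ C * S₀ ^ κ := by
  obtain ⟨C₁, κ₁, hC₁⟩ := exp_bound_even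
  obtain ⟨C₂, hC₂⟩ := boot (2 * 10 ^ 9 + 6) 4
  refine ⟨C₁ + C₂, κ₁ + 4, ?_⟩
  intro S₀ hS₀ a b c x y z h hcS hx hy hz heq
  have ha3 := h.a3
  have hb4 := h.b4'
  have hac := h.a_lt
  have hbc := h.b_lt
  have hp1 : C₁ * S₀ ^ κ₁ ≤ (C₁ + C₂) * S₀ ^ (κ₁ + 4) :=
    Nat.mul_le_mul (by omega) (Nat.pow_le_pow_right (by omega) (by omega))
  have hp2 : C₂ * S₀ ^ 4 ≤ (C₁ + C₂) * S₀ ^ (κ₁ + 4) :=
    Nat.mul_le_mul (by omega) (Nat.pow_le_pow_right (by omega) (by omega))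
  rcases Nat.lt_or_ge y 2 with hy2 | hy2
  · have hy1 : y = 1 := by omega
    subst hy1
    rw [pow_one] at heq
    have hzx : z < x := by
      by_contra hcon
      have := size (by omega) (by omega) h.pyth hx (by omega : 0 < 1) hz (by omega) (by omega)
        (by rw [pow_one]; exact heq)
      omega
    have hxb : x ≤ C₂ * 1 ^ 2 * S₀ ^ 4 := by
      apply hC₂ S₀ 1 x (by omega) le_rfl
      obtain ⟨S, hS⟩ : ∃ S, S = S₀ + 2 * (Nat.log 2 x + 1) := ⟨_, rfl⟩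
      rw [← hS]
      have hx2 : x ≤ 2 ^ S := le_two_pow_log (by omega)
      have h2S : (2 : ℕ) ^ S₀ ≤ 2 ^ S := Nat.pow_le_pow_right (by norm_num) (by omega)
      have h1 := (arch_diff (S := S) (T := S₀) (A := a) (U := c) (m := x) (k := z) (by omega)
        (by omega) (by omega) (by omega) (by omega) hx hz (by omega) (by omega) (by
          have h3 : (c : ℤ) ^ z - (a : ℤ) ^ x = b := by
            have : ((a ^ x + b : ℕ) : ℤ) = ((c ^ z : ℕ) : ℤ) := by rw [heq]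
            push_cast at this
            linear_combination -this
          rw [h3, Nat.abs_cast]
          exact_mod_cast hbc.le.trans hcS)).1
      have h2 : S ≤ S ^ 4 := Nat.le_self_pow (by norm_num) _
      have h3 : 1 ≤ S ^ 4 := Nat.one_le_pow _ _ (by omega)
      calc x ≤ 2 * 10 ^ 9 * S ^ 4 + 2 * S₀ + 4 := h1
        _ ≤ (2 * 10 ^ 9 + 6) * 1 * S ^ 4 := by omega
    rw [one_pow, mul_one] at hxb
    have h1 : 1 ≤ (C₁ + C₂) * S₀ ^ (κ₁ + 4) := by omega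
    exact ⟨hxb.trans hp2, h1, by omega⟩
  · obtain ⟨h1, h2, h3⟩ := hC₁ S₀ hS₀ b a c y x z (by omega) (by omega) (by omega) (by omega) hcS
      h.hac (dvd_trans (by norm_num) h.b4) h.aodd h.codd hy2 hx hz 1 1 (Or.inl rfl) (Or.inl rfl)
      (by
        have : ((a ^ x + b ^ y : ℕ) : ℤ) = ((c ^ z : ℕ) : ℤ) := by rw [heq]
        push_cast at this
        linear_combination this) (by omega)
    exact ⟨(h2 (by omega)).trans hp1, h1.trans hp1, (h3 (by omega)).trans hp1⟩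

/-- **The exponents are bounded.** -/
theorem exp_all : ∃ C κ : ℕ, ∀ S₀ : ℕ, 2 ≤ S₀ → ∀ a b c k x y z Q : ℕ, PT a b c → c ≤ 2 ^ S₀ →
    1 ≤ Q → 2 * a ^ Q ≤ c ^ Q → 1 ≤ k → 0 < x → 0 < y → 0 < z →
    (k * a) ^ x + (k * b) ^ y = (k * c) ^ z → ¬ (x = 2 ∧ y = 2 ∧ z = 2) →
    x ≤ C * Q ^ 2 * S₀ ^ κ ∧ y ≤ C * Q ^ 2 * S₀ ^ κ ∧ z ≤ C * Q ^ 2 * S₀ ^ κ := by
  obtain ⟨C₁, κ₁, h₁⟩ := expOne
  obtain ⟨C₂, κ₂, h₂⟩ := expA
  obtain ⟨C₃, κ₃, h₃⟩ := expB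
  refine ⟨C₁ + C₂ + C₃, κ₁ + κ₂ + κ₃, ?_⟩
  intro S₀ hS₀ a b c k x y z Q h hcS hQ hQ2 hk hx hy hz heq hne
  have hQ1 : 1 ≤ Q ^ 2 := Nat.one_le_pow _ _ hQ
  have p1 : C₁ * S₀ ^ κ₁ ≤ (C₁ + C₂ + C₃) * Q ^ 2 * S₀ ^ (κ₁ + κ₂ + κ₃) := by
    apply Nat.mul_le_mul
    · exact (by omega : C₁ ≤ C₁ + C₂ + C₃).trans (Nat.le_mul_of_pos_right _ hQ1)
    · exact Nat.pow_le_pow_right (by omega) (by omega)
  have p2 : C₂ * S₀ ^ κ₂ ≤ (C₁ + C₂ + C₃) * Q ^ 2 * S₀ ^ (κ₁ + κ₂ + κ₃) := by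
    apply Nat.mul_le_mul
    · exact (by omega : C₂ ≤ C₁ + C₂ + C₃).trans (Nat.le_mul_of_pos_right _ hQ1)
    · exact Nat.pow_le_pow_right (by omega) (by omega)
  have p3 : C₃ * Q ^ 2 * S₀ ^ κ₃ ≤ (C₁ + C₂ + C₃) * Q ^ 2 * S₀ ^ (κ₁ + κ₂ + κ₃) := by
    apply Nat.mul_le_mul
    · exact Nat.mul_le_mul_right _ (by omega)
    · exact Nat.pow_le_pow_right (by omega) (by omega)
  rcases Nat.lt_or_ge k 2 with hk2 | hk2
  · have hk1 : k = 1 := by omega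
    subst hk1
    simp only [one_mul] at heq
    obtain ⟨g1, g2, g3⟩ := h₁ S₀ hS₀ a b c x y z h hcS hx hy hz heq
    exact ⟨g1.trans p1, g2.trans p1, g3.trans p1⟩
  · rcases order h hk2 hx hy hz heq hne with ⟨g1, g2⟩ | ⟨g1, g2⟩
    · have := (h₂ S₀ hS₀ a b c k x y z h hcS hk2 hx g1 g2 heq).trans p2
      exact ⟨by omega, this, by omega⟩
    · have := (h₃ S₀ hS₀ a b c k x y z Q h hcS hQ hQ2 hk2 hy g1 g2 heq).trans p3
      exact ⟨this, by omega, by omega⟩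

end Pool.Agent.R480.Jes
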