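import Pool.Agent.R480.Jes.Cases

/-!
# The number of exceptional generators for the primitive triple itself
-/

set_option autoImplicit false

namespace Pool.Agent.R480.Jes

open Finset Polynomial

lemma deg_quad' (A B : ℚ) : (C B * X ^ 2 + C A : ℚ[X]).natDegree ≤ 2 := by
  compute_degree

theorem countOne (t x y z : ℕ) (ht : 2 ≤ t) (hx : 0 < x) (hy : 0 < y) (hz : 0 < z)
    (hne : ¬ (x = 2 ∧ y = 2 ∧ z = 2)) (F : Finset ℕ)
    (hF : ∀ s ∈ F, Gen s t ∧ (s ^ 2 - t ^ 2) ^ x + (2 * s * t) ^ y = (s ^ 2 + t ^ 2) ^ z) :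
    F.card ≤ 2 * x + y + 2 * z := by
  rcases F.eq_empty_or_nonempty with h0 | ⟨s₀, hs₀⟩
  · rw [h0]; simp
  obtain ⟨hg, heq⟩ := hF s₀ hs₀
  have hPT := hg.PT
  have hnot : ¬ (x ≤ z ∧ y ≤ z) := by
    rintro ⟨h1, h2⟩
    have ha3 := hPT.a3
    have hb4 := hPT.b4'
    exact hne (size (by omega) (by omega) hPT.pyth hx hy hz h1 h2 heq)
  set P : ℚ[X] := (C 1 * X ^ 2 + C (-(t : ℚ) ^ 2)) ^ x + (C (2 * (t : ℚ)) * X) ^ y -
    (C 1 * X ^ 2 + C ((t : ℚ) ^ 2)) ^ z with hP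
  have hdeg : P.natDegree ≤ 2 * x + y + 2 * z := by
    rw [hP]
    have e1 : ((C 1 * X ^ 2 + C (-(t : ℚ) ^ 2) : ℚ[X]) ^ x).natDegree ≤ 2 * x + y + 2 * z :=
      (natDegree_pow_le_of_le x (deg_quad' _ _)).trans (by omega)
    have e2 : ((C (2 * (t : ℚ)) * X : ℚ[X]) ^ y).natDegree ≤ 2 * x + y + 2 * z :=
      (natDegree_pow_le_of_le y (deg_lin _)).trans (by omega)
    have e3 : ((C 1 * X ^ 2 + C ((t : ℚ) ^ 2) : ℚ[X]) ^ z).natDegree ≤ 2 * x + y + 2 * z :=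
      (natDegree_pow_le_of_le z (deg_quad' _ _)).trans (by omega)
    have e4 := natDegree_add_le_of_le e1 e2
    rw [max_self] at e4
    have e5 := natDegree_sub_le_of_le e4 e3
    rw [max_self] at e5
    exact e5
  have htq : (2 : ℚ) ≤ (t : ℚ) := by exact_mod_cast ht
  have hne0 : P ≠ 0 := by
    intro hzero
    apply hnot
    have h1 : P.eval 0 = 0 := by rw [hzero, eval_zero]
    have h2 : P.eval (t : ℚ) = 0 := by rw [hzero, eval_zero]
    rw [hP] at h1 h2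
    simp only [eval_sub, eval_pow, eval_add, eval_mul, eval_C, eval_X, mul_zero, ne_eq,
      OfNat.ofNat_ne_zero, not_false_eq_true, zero_pow, zero_add, hy.ne', add_zero,
      one_mul] at h1 h2
    have h3 : x = z := by
      have h4 : |(-(t : ℚ) ^ 2) ^ x| = |((t : ℚ) ^ 2) ^ z| := by
        congr 1
        linarith
      rw [abs_pow (-(t : ℚ) ^ 2), abs_neg, abs_pow ((t : ℚ) ^ 2) z,
        abs_of_pos (by positivity : (0 : ℚ) < (t : ℚ) ^ 2)] at h4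
      have h5 : (1 : ℚ) < (t : ℚ) ^ 2 := by nlinarith
      exact pow_right_injective₀ (by positivity) h5.ne' h4
    have h4 : y = z := by
      rw [show (t : ℚ) ^ 2 + -(t : ℚ) ^ 2 = 0 by ring, zero_pow hx.ne', zero_add, sub_eq_zero] at h2
      have h5 : (1 : ℚ) < 2 * (t : ℚ) * t := by nlinarith
      rw [show (t : ℚ) ^ 2 + (t : ℚ) ^ 2 = 2 * (t : ℚ) * t by ring] at h2
      exact pow_right_injective₀ (by positivity) h5.ne' h2
    exact ⟨h3.le, h4.le⟩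
  refine (roots_card P hne0 F ?_).trans hdeg
  intro s hs
  obtain ⟨hg, heq⟩ := hF s hs
  rw [hP]
  simp only [eval_sub, eval_pow, eval_add, eval_mul, eval_C, eval_X, one_mul]
  have hts : t ^ 2 ≤ s ^ 2 := Nat.pow_le_pow_left hg.lt.le 2
  have h1 : (((s ^ 2 - t ^ 2) ^ x + (2 * s * t) ^ y : ℕ) : ℚ) = (((s ^ 2 + t ^ 2) ^ z : ℕ) : ℚ) := by
    rw [heq]
  push_cast [Nat.cast_sub hts] at h1
  rw [show (2 : ℚ) * (t : ℚ) * (s : ℚ) = 2 * s * t by ring,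
    show (s : ℚ) ^ 2 + -(t : ℚ) ^ 2 = (s : ℚ) ^ 2 - t ^ 2 by ring]
  linarith

end Pool.Agent.R480.Jes
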