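import Pool.Agent.R480.Jes.Alg

/-!
# The shape of an exceptional solution for a multiple of a primitive Pythagorean triple
-/

set_option autoImplicit false

namespace Pool.Agent.R480.Jes

/-- `k` is made of primes of `u`, and the part `u₁` of `u` made of the primes of `k` satisfies
`u₁ ^ x = k ^ (z - x)`. -/
theorem split {u v c k x y z : ℕ} (huc : Nat.Coprime u c) (hu : 0 < u) (hk : 2 ≤ k)
    (hx : 0 < x) (hxz : x < z) (hzy : z < y) (heq : (k * u) ^ x + (k * v) ^ y = (k * c) ^ z) :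
    ∃ u₁ u₂ : ℕ, u = u₁ * u₂ ∧ Nat.Coprime u₁ u₂ ∧ 2 ≤ u₁ ∧ 0 < u₂ ∧ u₁ ^ x = k ^ (z - x) ∧
      u₂ ^ x + k ^ (y - z) * v ^ y = c ^ z := by
  have hkx : 0 < k ^ x := by positivity
  have hkzx : 0 < k ^ (z - x) := by positivity
  have hsplit : ∀ {m n : ℕ}, n ≤ m → k ^ m = k ^ n * k ^ (m - n) := by
    intro m n hmn
    rw [← pow_add]
    congr 1
    omega
  have e1 : u ^ x + k ^ (z - x) * (k ^ (y - z) * v ^ y) = k ^ (z - x) * c ^ z := by
    apply Nat.eq_of_mul_eq_mul_left hkx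
    rw [mul_pow, mul_pow, mul_pow, hsplit (show x ≤ z by omega), hsplit (show x ≤ y by omega),
      show k ^ (y - x) = k ^ (z - x) * k ^ (y - z) by rw [← pow_add]; congr 1; omega] at heq
    rw [mul_add, ← mul_assoc (k ^ x) (k ^ (z - x)) (c ^ z), ← heq]
    ring
  obtain ⟨W, hW⟩ : ∃ W, W + k ^ (y - z) * v ^ y = c ^ z := by
    refine ⟨c ^ z - k ^ (y - z) * v ^ y, Nat.sub_add_cancel ?_⟩
    have h1 : k ^ (z - x) * (k ^ (y - z) * v ^ y) ≤ k ^ (z - x) * c ^ z := by omega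
    exact Nat.le_of_mul_le_mul_left h1 hkzx
  have e2 : k ^ (z - x) * W = u ^ x := by
    rw [← hW, mul_add] at e1
    omega
  have hux : 0 < u ^ x := by positivity
  have hW0 : 0 < W := by
    rcases Nat.eq_zero_or_pos W with h | h
    · rw [h, mul_zero] at e2
      omega
    · exact h
  have hcop : Nat.Coprime (k ^ (z - x)) W := by
    apply Nat.Coprime.pow_left
    apply Nat.coprime_of_dvd
    intro p hp hpk hpW
    have h1 : p ∣ u := by
      apply hp.dvd_of_dvd_pow (n := x)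
      rw [← e2]
      exact Dvd.dvd.mul_left hpW _
    have h2 : p ∣ c := by
      apply hp.dvd_of_dvd_pow (n := z)
      rw [← hW]
      exact Nat.dvd_add hpW (Dvd.dvd.mul_right (dvd_pow hpk (by omega)) _)
    exact hp.one_lt.ne' (Nat.eq_one_of_dvd_coprimes huc h1 h2)
  obtain ⟨u₁, hu₁⟩ : ∃ d, k ^ (z - x) = d ^ x :=
    exists_eq_pow_of_mul_eq_pow (a := k ^ (z - x)) (b := W) (c := u) (k := x)
      (by
        have h1 : GCDMonoid.gcd (k ^ (z - x)) W = 1 := hcop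
        rw [h1]
        exact isUnit_one) e2
  obtain ⟨u₂, hu₂⟩ : ∃ d, W = d ^ x :=
    exists_eq_pow_of_mul_eq_pow (a := W) (b := k ^ (z - x)) (c := u) (k := x)
      (by
        have h1 : GCDMonoid.gcd W (k ^ (z - x)) = 1 := hcop.symm
        rw [h1]
        exact isUnit_one) (by rw [mul_comm]; exact e2)
  have hu12 : u = u₁ * u₂ := by
    have h1 : (u₁ * u₂) ^ x = u ^ x := by rw [mul_pow, ← hu₁, ← hu₂, e2]
    exact (Nat.pow_left_injective (by omega : x ≠ 0) h1).symm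
  refine ⟨u₁, u₂, hu12, ?_, ?_, ?_, hu₁.symm, by rw [← hu₂]; exact hW⟩
  · rw [hu₁, hu₂] at hcop
    exact (Nat.coprime_pow_left_iff hx _ _).1 ((Nat.coprime_pow_right_iff hx _ _).1 hcop)
  · by_contra hcon
    have h1 : k ^ (z - x) ≤ 1 := by
      rw [hu₁]
      calc u₁ ^ x ≤ 1 ^ x := Nat.pow_le_pow_left (by omega) _
        _ = 1 := one_pow _
    have h2 : 1 < k ^ (z - x) := Nat.one_lt_pow (by omega) (by omega)
    omega
  · rcases Nat.eq_zero_or_pos u₂ with h | h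
    · rw [h, mul_zero] at hu12
      omega
    · exact h

/-- the relation without `k` -/
theorem split_rel {u₁ u₂ v c k x y z : ℕ} (h1 : u₁ ^ x = k ^ (z - x))
    (h2 : u₂ ^ x + k ^ (y - z) * v ^ y = c ^ z) :
    ((c : ℚ) ^ z - (u₂ : ℚ) ^ x) ^ (z - x) = (u₁ : ℚ) ^ (x * (y - z)) * (v : ℚ) ^ (y * (z - x)) := by
  have h1' : (u₁ : ℚ) ^ x = (k : ℚ) ^ (z - x) := by exact_mod_cast h1
  have h2' : (u₂ : ℚ) ^ x + (k : ℚ) ^ (y - z) * (v : ℚ) ^ y = (c : ℚ) ^ z := by exact_mod_cast h2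
  rw [← h2', add_sub_cancel_left, mul_pow, ← pow_mul, ← pow_mul, pow_mul _ x, h1', ← pow_mul,
    mul_comm (y - z) (z - x)]

/-- a common refinement of two factorizations into coprime factors -/
theorem refine4 {m n p q : ℕ} (hmn : Nat.Coprime m n) (hpq : Nat.Coprime p q) (h : m * n = p * q) :
    ∃ f₁ f₂ g₁ g₂ : ℕ, p = f₁ * f₂ ∧ q = g₁ * g₂ ∧ m = f₁ * g₁ ∧ n = f₂ * g₂ := by
  refine ⟨Nat.gcd p m, Nat.gcd p n, Nat.gcd q m, Nat.gcd q n, ?_, ?_, ?_, ?_⟩
  · rw [← hmn.gcd_mul, h]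
    exact (Nat.gcd_eq_left (Dvd.intro _ rfl)).symm
  · rw [← hmn.gcd_mul, h]
    exact (Nat.gcd_eq_left (Dvd.intro_left _ rfl)).symm
  · rw [Nat.gcd_comm p m, Nat.gcd_comm q m, ← hpq.gcd_mul, ← h]
    exact (Nat.gcd_eq_left (Dvd.intro _ rfl)).symm
  · rw [Nat.gcd_comm p n, Nat.gcd_comm q n, ← hpq.gcd_mul, ← h]
    exact (Nat.gcd_eq_left (Dvd.intro_left _ rfl)).symm

end Pool.Agent.R480.Jes
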