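import Pool.Agent.R480.Jes.CasesB
import Pool.Agent.R480.Jes.One

/-!
# The number of exceptional generators
-/

set_option autoImplicit false

namespace Pool.Agent.R480.Jes

open Finset Classical

/-- the triple itself has an exceptional solution -/
def Exc1 (s t : ℕ) : Prop :=
  ∃ x y z : ℕ, 0 < x ∧ 0 < y ∧ 0 < z ∧ ¬ (x = 2 ∧ y = 2 ∧ z = 2) ∧
    (s ^ 2 - t ^ 2) ^ x + (2 * s * t) ^ y = (s ^ 2 + t ^ 2) ^ z

/-- the pairs `(s, t)` with `s, t ≤ N` and a property -/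
noncomputable def box (N : ℕ) (p : ℕ → ℕ → Prop) : Finset (ℕ × ℕ) :=
  ((range (N + 1)) ×ˢ (range (N + 1))).filter (fun e => p e.1 e.2)

lemma mem_box {N : ℕ} {p : ℕ → ℕ → Prop} {e : ℕ × ℕ} :
    e ∈ box N p ↔ (e.1 ≤ N ∧ e.2 ≤ N) ∧ p e.1 e.2 := by
  simp only [box, mem_filter, mem_product, mem_range, Nat.lt_succ_iff]

/-- `k = 1` -/
def D1 (x y z : ℕ) (s t : ℕ) : Prop :=
  Gen s t ∧ 2 ≤ t ∧ 0 < x ∧ 0 < y ∧ 0 < z ∧ ¬ (x = 2 ∧ y = 2 ∧ z = 2) ∧
    (s ^ 2 - t ^ 2) ^ x + (2 * s * t) ^ y = (s ^ 2 + t ^ 2) ^ z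

/-- `x < z < y` -/
def DA (x y z : ℕ) (s t : ℕ) : Prop :=
  0 < x ∧ x < z ∧ z < y ∧ Gen s t ∧ ∃ a₁ a₂ : ℕ, s ^ 2 - t ^ 2 = a₁ * a₂ ∧
      Nat.Coprime a₁ a₂ ∧ 2 ≤ a₁ ∧ 0 < a₂ ∧
      (((s ^ 2 + t ^ 2 : ℕ) : ℚ) ^ z - (a₂ : ℚ) ^ x) ^ (z - x) =
        (a₁ : ℚ) ^ (x * (y - z)) * ((2 * s * t : ℕ) : ℚ) ^ (y * (z - x))

/-- `y < z < x` -/
def DB (x y z : ℕ) (s t : ℕ) : Prop :=
  0 < y ∧ y < z ∧ z < x ∧ Gen s t ∧ 2 ≤ t ∧ ∃ b₁ b₂ : ℕ, 2 * s * t = b₁ * b₂ ∧
      Nat.Coprime b₁ b₂ ∧ 2 ≤ b₁ ∧ 0 < b₂ ∧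
      (((s ^ 2 + t ^ 2 : ℕ) : ℚ) ^ z - (b₂ : ℚ) ^ y) ^ (z - y) =
        (b₁ : ℚ) ^ (y * (x - z)) * ((s ^ 2 - t ^ 2 : ℕ) : ℚ) ^ (x * (z - y))

lemma card_D1 (N X x y z : ℕ) (hx : x ≤ X) (hy : y ≤ X) (hz : z ≤ X) :
    (box N (D1 x y z)).card ≤ (5 * X) * (N + 1) := by
  have h1 := card_le_mul_card_image_of_maps_to (f := Prod.snd) (s := box N (D1 x y z))
    (t := range (N + 1)) (by
      intro e he
      rw [mem_box] at he
      rw [mem_range]
      omega) (5 * X) (by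
      intro t _
      have h2 : ((box N (D1 x y z)).filter (fun e => e.2 = t)).card =
          (((box N (D1 x y z)).filter (fun e => e.2 = t)).image Prod.fst).card := by
        rw [card_image_of_injOn]
        rintro ⟨s, t₁⟩ h3 ⟨s', t₂⟩ h4 h5
        simp only [coe_filter, Set.mem_ofPred_eq] at h3 h4 h5
        ext
        · exact h5
        · exact h3.2.trans h4.2.symm
      rw [h2]
      rcases (((box N (D1 x y z)).filter (fun e => e.2 = t)).image Prod.fst).eq_empty_or_nonempty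
        with h0 | ⟨s₀, hs₀⟩
      · rw [h0]; simp
      have key : ∀ s ∈ ((box N (D1 x y z)).filter (fun e => e.2 = t)).image Prod.fst,
          D1 x y z s t := by
        intro s hs
        rw [mem_image] at hs
        obtain ⟨e, he, rfl⟩ := hs
        rw [mem_filter, mem_box] at he
        rw [← he.2]
        exact he.1.2
      obtain ⟨-, g2, g3, g4, g5, g6, -⟩ := key s₀ hs₀
      refine (countOne t x y z g2 g3 g4 g5 g6 _ ?_).trans (by omega)
      intro s hs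
      obtain ⟨k1, -, -, -, -, -, k7⟩ := key s hs
      exact ⟨k1, k7⟩)
  rwa [card_range] at h1

/-- the main term -/
noncomputable def W (N : ℕ) : ℕ := (Nat.sqrt (2 * N) + 1) * (Pr (2 * N)).card

lemma card_DA (N X x y z : ℕ) (hy : y ≤ X) :
    (box N (DA x y z)).card ≤ 10 * X ^ 2 * W N := by
  by_cases h : 0 < x ∧ x < z ∧ z < y
  · have h1 := countA N x y z h.1 h.2.1 h.2.2 (box N (DA x y z)) (by
      intro e he
      rw [mem_box] at he
      obtain ⟨h1, -, -, -, h2, h3⟩ := he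
      exact ⟨h2, h1.1, h3⟩)
    have h2 : y ^ 2 ≤ X ^ 2 := Nat.pow_le_pow_left hy 2
    calc _ ≤ _ := h1
      _ = 10 * y ^ 2 * W N := by rw [W]; ring
      _ ≤ _ := by gcongr
  · have h1 : box N (DA x y z) = ∅ := by
      apply eq_empty_of_forall_notMem
      intro e he
      rw [mem_box] at he
      exact h ⟨he.2.1, he.2.2.1, he.2.2.2.1⟩
    rw [h1]
    simp

lemma card_DB (N X x y z : ℕ) (hx : x ≤ X) :
    (box N (DB x y z)).card ≤ 20 * X ^ 2 * W N := by
  by_cases h : 0 < y ∧ y < z ∧ z < x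
  · have h1 := countB_even N x y z h.1 h.2.1 h.2.2 ((box N (DB x y z)).filter
      (fun e => Even e.1)) (by
      intro e he
      rw [mem_filter, mem_box] at he
      obtain ⟨⟨h1, -, -, -, h2, h3, h4⟩, h5⟩ := he
      exact ⟨h2, h1.1, h3, h5, h4⟩)
    have h2 := countB_odd N x y z h.1 h.2.1 h.2.2 ((box N (DB x y z)).filter
      (fun e => ¬ Even e.1)) (by
      intro e he
      rw [mem_filter, mem_box] at he
      obtain ⟨⟨h1, -, -, -, h2, h3, h4⟩, h5⟩ := he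
      exact ⟨h2, h1.1, h3, h5, h4⟩)
    have h3 : x ^ 2 ≤ X ^ 2 := Nat.pow_le_pow_left hx 2
    calc _ = ((box N (DB x y z)).filter (fun e => Even e.1)).card +
          ((box N (DB x y z)).filter (fun e => ¬ Even e.1)).card :=
          (card_filter_add_card_filter_not _).symm
      _ ≤ _ := add_le_add h1 h2
      _ = 20 * x ^ 2 * W N := by rw [W]; ring
      _ ≤ _ := by gcongr
  · have h1 : box N (DB x y z) = ∅ := by
      apply eq_empty_of_forall_notMem
      intro e he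
      rw [mem_box] at he
      exact h ⟨he.2.1, he.2.2.1, he.2.2.2.1⟩
    rw [h1]
    simp

lemma card_small (N : ℕ) : (box N (fun _ t => t = 1)).card ≤ N + 1 := by
  have h1 : box N (fun _ t => t = 1) ⊆ (range (N + 1)) ×ˢ {1} := by
    intro e he
    rw [mem_box] at he
    rw [mem_product, mem_range, mem_singleton]
    exact ⟨by omega, he.2⟩
  refine (card_le_card h1).trans ?_
  rw [card_product, card_range, card_singleton, mul_one]

lemma card_steep (N R : ℕ) (hR : 1 ≤ R) :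
    (box N (fun s t => R * t < s)).card ≤ (N + 1) * (N / R + 1) := by
  have h1 : box N (fun s t => R * t < s) ⊆ (range (N + 1)) ×ˢ (range (N / R + 1)) := by
    intro e he
    rw [mem_box] at he
    rw [mem_product, mem_range, mem_range]
    refine ⟨by omega, ?_⟩
    have h2 : e.2 ≤ N / R := by
      rw [Nat.le_div_iff_mul_le (by omega), mul_comm]
      have := he.2
      omega
    omega
  refine (card_le_card h1).trans ?_
  rw [card_product, card_range, card_range]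

lemma le_two_pow_aux {N s t : ℕ} (hs : s ≤ N) (h : t < s) :
    s ^ 2 + t ^ 2 ≤ 2 ^ (2 * Nat.log 2 N + 3) := by
  have h1 : N < 2 ^ (Nat.log 2 N + 1) := Nat.lt_pow_succ_log_self (by norm_num) N
  have h2 : s ^ 2 ≤ (2 ^ (Nat.log 2 N + 1)) ^ 2 := Nat.pow_le_pow_left (by omega) 2
  have h3 : t ^ 2 ≤ (2 ^ (Nat.log 2 N + 1)) ^ 2 := Nat.pow_le_pow_left (by omega) 2
  have h4 : (2 : ℕ) ^ (2 * Nat.log 2 N + 3) = 2 * (2 ^ (Nat.log 2 N + 1)) ^ 2 := by
    rw [← pow_mul, ← pow_succ']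
    congr 1
    ring
  omega

/-- the cube of exponents -/
def cube (X : ℕ) : Finset (ℕ × ℕ × ℕ) := (Icc 1 X) ×ˢ ((Icc 1 X) ×ˢ (Icc 1 X))

lemma card_cube (X : ℕ) : (cube X).card = X ^ 3 := by
  rw [cube, card_product, card_product, Nat.card_Icc, Nat.add_sub_cancel]
  ring

/-- **All multiples.** -/
theorem count_all : ∃ C κ : ℕ, ∀ N R X : ℕ, 1 ≤ R →
    C * R ^ 4 * (2 * Nat.log 2 N + 3) ^ κ ≤ X →
    (box N (fun s t => Gen s t ∧ Exc s t)).card ≤
      (N + 1) + (N + 1) * (N / R + 1) + X ^ 3 * (5 * X * (N + 1) + 30 * X ^ 2 * W N) := by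
  obtain ⟨C, κ, hC⟩ := exp_all
  refine ⟨C, κ, ?_⟩
  intro N R X hR hX
  have hsub : box N (fun s t => Gen s t ∧ Exc s t) ⊆
      (box N (fun _ t => t = 1) ∪ box N (fun s t => R * t < s)) ∪
      (cube X).biUnion (fun e => box N (D1 e.1 e.2.1 e.2.2) ∪
        (box N (DA e.1 e.2.1 e.2.2) ∪ box N (DB e.1 e.2.1 e.2.2))) := by
    rintro ⟨s, t⟩ he
    rw [mem_box] at he
    simp only at he
    obtain ⟨⟨hs, ht⟩, hg, k, x, y, z, hk, hx, hy, hz, hne, heq⟩ := he
    have hpos := hg.pos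
    have hlt := hg.lt
    by_cases ht1 : t = 1
    · apply mem_union_left
      apply mem_union_left
      rw [mem_box]
      exact ⟨⟨hs, ht⟩, ht1⟩
    by_cases hR2 : R * t < s
    · apply mem_union_left
      apply mem_union_right
      rw [mem_box]
      exact ⟨⟨hs, ht⟩, hR2⟩
    apply mem_union_right
    push Not at hR2
    have hPT := hg.PT
    have ht2 : 2 ≤ t := by omega
    obtain ⟨bx, by', bz⟩ := hC (2 * Nat.log 2 N + 3) (by omega) _ _ _ k x y z (R ^ 2) hPT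
      (le_two_pow_aux hs hlt) (Nat.one_le_pow _ _ hR) (ratio hg hR2) hk hx hy hz heq hne
    rw [← pow_mul] at bx by' bz
    have bx2 := bx.trans hX
    have by2 := by'.trans hX
    have bz2 := bz.trans hX
    rw [mem_biUnion]
    refine ⟨(x, y, z), ?_, ?_⟩
    · simp only [cube, mem_product, mem_Icc]
      exact ⟨⟨hx, bx2⟩, ⟨hy, by2⟩, hz, bz2⟩
    simp only
    rcases Nat.lt_or_ge k 2 with hk2 | hk2
    · have hk1 : k = 1 := by omega
      subst hk1
      simp only [one_mul] at heq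
      apply mem_union_left
      rw [mem_box]
      exact ⟨⟨hs, ht⟩, hg, ht2, hx, hy, hz, hne, heq⟩
    · apply mem_union_right
      rcases order hPT hk2 hx hy hz heq hne with ⟨g1, g2⟩ | ⟨g1, g2⟩
      · apply mem_union_left
        rw [mem_box]
        obtain ⟨a₁, a₂, e1, e2, e3, e4, e5, e6⟩ := split hPT.hac (by have := hPT.a3; omega) hk2 hx g1
          g2 heq
        exact ⟨⟨hs, ht⟩, hx, g1, g2, hg, a₁, a₂, e1, e2, e3, e4, split_rel e5 e6⟩
      · apply mem_union_right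
        rw [mem_box]
        obtain ⟨b₁, b₂, e1, e2, e3, e4, e5, e6⟩ := split hPT.hbc hPT.b0 hk2 hy g1
          g2 (by rw [add_comm]; exact heq)
        exact ⟨⟨hs, ht⟩, hy, g1, g2, hg, ht2, b₁, b₂, e1, e2, e3, e4, split_rel e5 e6⟩
  have hbi : ((cube X).biUnion (fun e => box N (D1 e.1 e.2.1 e.2.2) ∪
        (box N (DA e.1 e.2.1 e.2.2) ∪ box N (DB e.1 e.2.1 e.2.2)))).card ≤
      X ^ 3 * (5 * X * (N + 1) + 30 * X ^ 2 * W N) := by
    rw [← card_cube]
    apply card_biUnion_le_card_mul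
    rintro ⟨x, y, z⟩ he
    simp only [cube, mem_product, mem_Icc] at he
    simp only
    obtain ⟨⟨-, hx⟩, ⟨-, hy⟩, -, hz⟩ := he
    have h1 := card_D1 N X x y z hx hy hz
    have h2 := card_DA N X x y z hy
    have h3 := card_DB N X x y z hx
    calc _ ≤ _ := card_union_le _ _
      _ ≤ 5 * X * (N + 1) + (10 * X ^ 2 * W N + 20 * X ^ 2 * W N) :=
        add_le_add h1 ((card_union_le _ _).trans (add_le_add h2 h3))
      _ = _ := by ring
  calc _ ≤ _ := card_le_card hsub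
    _ ≤ _ := card_union_le _ _
    _ ≤ _ := add_le_add ((card_union_le _ _).trans (add_le_add (card_small N)
      (card_steep N R hR))) hbi

/-- **The triple itself.** -/
theorem count_one : ∃ C κ : ℕ, ∀ N X : ℕ, C * (2 * Nat.log 2 N + 3) ^ κ ≤ X →
    (box N (fun s t => Gen s t ∧ Exc1 s t)).card ≤ (N + 1) + X ^ 3 * (5 * X * (N + 1)) := by
  obtain ⟨C, κ, hC⟩ := expOne
  refine ⟨C, κ, ?_⟩
  intro N X hX
  have hsub : box N (fun s t => Gen s t ∧ Exc1 s t) ⊆
      (box N (fun _ t => t = 1)) ∪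
      (cube X).biUnion (fun e => box N (D1 e.1 e.2.1 e.2.2)) := by
    rintro ⟨s, t⟩ he
    rw [mem_box] at he
    simp only at he
    obtain ⟨⟨hs, ht⟩, hg, x, y, z, hx, hy, hz, hne, heq⟩ := he
    have hpos := hg.pos
    have hlt := hg.lt
    by_cases ht1 : t = 1
    · apply mem_union_left
      rw [mem_box]
      exact ⟨⟨hs, ht⟩, ht1⟩
    apply mem_union_right
    have hPT := hg.PT
    have ht2 : 2 ≤ t := by omega
    obtain ⟨bx, by', bz⟩ := hC (2 * Nat.log 2 N + 3) (by omega) _ _ _ x y z hPT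
      (le_two_pow_aux hs hlt) hx hy hz heq
    rw [mem_biUnion]
    refine ⟨(x, y, z), ?_, ?_⟩
    · simp only [cube, mem_product, mem_Icc]
      exact ⟨⟨hx, bx.trans hX⟩, ⟨hy, by'.trans hX⟩, hz, bz.trans hX⟩
    · rw [mem_box]
      exact ⟨⟨hs, ht⟩, hg, ht2, hx, hy, hz, hne, heq⟩
  have hbi : ((cube X).biUnion (fun e => box N (D1 e.1 e.2.1 e.2.2))).card ≤
      X ^ 3 * (5 * X * (N + 1)) := by
    rw [← card_cube]
    apply card_biUnion_le_card_mul
    rintro ⟨x, y, z⟩ he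
    simp only [cube, mem_product, mem_Icc] at he
    obtain ⟨⟨-, hx⟩, ⟨-, hy⟩, -, hz⟩ := he
    exact card_D1 N X x y z hx hy hz
  calc _ ≤ _ := card_le_card hsub
    _ ≤ _ := card_union_le _ _
    _ ≤ _ := add_le_add (card_small N) hbi

end Pool.Agent.R480.Jes
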