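import Pool.Agent.R480.Jes.Asym

/-!
# From generators to primitive Pythagorean triples
-/

set_option autoImplicit false

namespace Pool.Agent.R480.Jes

open Finset Classical

/-- a primitive Pythagorean triple of positive integers -/
def Primitive (a b c : ℕ) : Prop := 0 < a ∧ 0 < b ∧ a ^ 2 + b ^ 2 = c ^ 2 ∧ Nat.Coprime a b

/-- `a ^ x + b ^ y = c ^ z` has a solution in positive integers other than `(2, 2, 2)` -/
def Fails (a b c : ℕ) : Prop :=
  ∃ x y z : ℕ, 0 < x ∧ 0 < y ∧ 0 < z ∧ ¬ (x = 2 ∧ y = 2 ∧ z = 2) ∧ a ^ x + b ^ y = c ^ z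

lemma Fails.symm {a b c : ℕ} (h : Fails a b c) : Fails b a c := by
  obtain ⟨x, y, z, hx, hy, hz, hne, heq⟩ := h
  exact ⟨y, x, z, hy, hx, hz, fun h => hne ⟨h.2.1, h.1, h.2.2⟩, by rw [add_comm]; exact heq⟩

lemma Primitive.symm {a b c : ℕ} (h : Primitive a b c) : Primitive b a c :=
  ⟨h.2.1, h.1, by rw [add_comm]; exact h.2.2.1, h.2.2.2.symm⟩

lemma Primitive.gen {a b c : ℕ} (h : Primitive a b c) (ha : Odd a) :
    ∃ s t : ℕ, Gen s t ∧ a = s ^ 2 - t ^ 2 ∧ b = 2 * s * t ∧ c = s ^ 2 + t ^ 2 := by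
  obtain ⟨ha0, hb0, hp, hco⟩ := h
  have hc0 : 0 < c := by
    rcases Nat.eq_zero_or_pos c with h1 | h1
    · subst h1
      have : 0 < a ^ 2 := by positivity
      simp at hp
      omega
    · exact h1
  have hpt : PythagoreanTriple (a : ℤ) b c := by
    show (a : ℤ) * a + b * b = c * c
    have : ((a ^ 2 + b ^ 2 : ℕ) : ℤ) = ((c ^ 2 : ℕ) : ℤ) := by rw [hp]
    push_cast at this
    linarith
  obtain ⟨m, n, h1, h2, h3, h4, h5, h6⟩ := hpt.coprime_classification'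
    (by rw [Int.gcd_natCast_natCast]; exact hco)
    (by have := Nat.odd_iff.1 ha; omega) (by exact_mod_cast hc0)
  have hb0' : (0 : ℤ) < b := by exact_mod_cast hb0
  have ha0' : (0 : ℤ) < a := by exact_mod_cast ha0
  have hm0 : 0 < m := by
    rcases h6.eq_or_lt with h | h
    · rw [← h] at h2; simp at h2; omega
    · exact h
  have hn0 : 0 < n := by
    by_contra hcon
    push Not at hcon
    nlinarith
  obtain ⟨s, rfl⟩ := Int.eq_ofNat_of_zero_le hm0.le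
  obtain ⟨t, rfl⟩ := Int.eq_ofNat_of_zero_le hn0.le
  have hs0 : 0 < s := by exact_mod_cast hm0
  have ht0 : 0 < t := by exact_mod_cast hn0
  have hlt : t < s := by
    by_contra hcon
    push Not at hcon
    have : (s : ℤ) ≤ t := by exact_mod_cast hcon
    nlinarith
  have hsq : t ^ 2 ≤ s ^ 2 := Nat.pow_le_pow_left hlt.le 2
  refine ⟨s, t, ⟨ht0, hlt, ?_, ?_⟩, ?_, ?_, ?_⟩
  · rw [Int.gcd_natCast_natCast] at h4
    exact h4
  · rw [Nat.odd_iff]
    omega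
  · zify [hsq]
    exact h1
  · exact_mod_cast h2
  · exact_mod_cast h3

lemma Primitive.parity {a b c : ℕ} (h : Primitive a b c) : Odd a ∨ Odd b := by
  rcases Nat.even_or_odd a with h1 | h1
  · rcases Nat.even_or_odd b with h2 | h2
    · exfalso
      have h3 : 2 ∣ Nat.gcd a b := Nat.dvd_gcd h1.two_dvd h2.two_dvd
      rw [h.2.2.2] at h3
      omega
    · exact Or.inr h2
  · exact Or.inl h1

/-- the triples of numbers up to `X` with a property -/
noncomputable def tri (X : ℕ) (p : ℕ → ℕ → ℕ → Prop) : Finset (ℕ × ℕ × ℕ) :=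
  ((range (X + 1)) ×ˢ ((range (X + 1)) ×ˢ (range (X + 1)))).filter (fun e => p e.1 e.2.1 e.2.2)

lemma mem_tri {X : ℕ} {p : ℕ → ℕ → ℕ → Prop} {e : ℕ × ℕ × ℕ} :
    e ∈ tri X p ↔ (e.1 ≤ X ∧ e.2.1 ≤ X ∧ e.2.2 ≤ X) ∧ p e.1 e.2.1 e.2.2 := by
  simp only [tri, mem_filter, mem_product, mem_range, Nat.lt_succ_iff]

/-- triples are counted by generators -/
theorem tri_le (X : ℕ) (p : ℕ → ℕ → ℕ → Prop) (hp : ∀ a b c, p a b c → p b a c)
    (q : ℕ → ℕ → Prop) (hq : ∀ s t, Gen s t → p (s ^ 2 - t ^ 2) (2 * s * t) (s ^ 2 + t ^ 2) →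
      q s t) :
    (tri X (fun a b c => Primitive a b c ∧ p a b c)).card ≤
      2 * (box (Nat.sqrt X) (fun s t => Gen s t ∧ q s t)).card := by
  have hsub : tri X (fun a b c => Primitive a b c ∧ p a b c) ⊆
      (box (Nat.sqrt X) (fun s t => Gen s t ∧ q s t)).image
        (fun e => (e.1 ^ 2 - e.2 ^ 2, (2 * e.1 * e.2, e.1 ^ 2 + e.2 ^ 2))) ∪
      (box (Nat.sqrt X) (fun s t => Gen s t ∧ q s t)).image
        (fun e => (2 * e.1 * e.2, (e.1 ^ 2 - e.2 ^ 2, e.1 ^ 2 + e.2 ^ 2))) := by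
    rintro ⟨a, b, c⟩ he
    rw [mem_tri] at he
    simp only at he
    obtain ⟨⟨-, -, hcX⟩, hprim, hpabc⟩ := he
    rw [mem_union, mem_image, mem_image]
    have hmem : ∀ s t : ℕ, Gen s t → s ^ 2 + t ^ 2 ≤ X → q s t →
        (s, t) ∈ box (Nat.sqrt X) (fun s t => Gen s t ∧ q s t) := by
      intro s t hg hX hqst
      rw [mem_box]
      have h1 : s ≤ Nat.sqrt X := by rw [Nat.le_sqrt']; omega
      have h2 := hg.lt
      exact ⟨⟨h1, by simp only; omega⟩, hg, hqst⟩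
    rcases hprim.parity with h | h
    · obtain ⟨s, t, hg, rfl, rfl, rfl⟩ := hprim.gen h
      exact Or.inl ⟨(s, t), hmem s t hg hcX (hq s t hg hpabc), rfl⟩
    · obtain ⟨s, t, hg, rfl, rfl, rfl⟩ := hprim.symm.gen h
      exact Or.inr ⟨(s, t), hmem s t hg hcX (hq s t hg (hp _ _ _ hpabc)), rfl⟩
  calc _ ≤ _ := card_le_card hsub
    _ ≤ _ := card_union_le _ _
    _ ≤ _ := add_le_add card_image_le card_image_le
    _ = _ := by ring

/-- **All multiples of primitive triples.** -/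
theorem primitive_all : ∃ C : ℝ, ∀ X : ℕ, 1 ≤ X →
    ((tri X (fun a b c => Primitive a b c ∧
      ∃ k : ℕ, 1 ≤ k ∧ Fails (k * a) (k * b) (k * c))).card : ℝ) ≤
        C * (X : ℝ) ^ (99 / 100 : ℝ) := by
  obtain ⟨C, hC0, hC⟩ := asym_all
  refine ⟨2 * C, ?_⟩
  intro X hX
  have h1 := tri_le X (fun a b c => ∃ k : ℕ, 1 ≤ k ∧ Fails (k * a) (k * b) (k * c))
    (fun a b c ⟨k, hk, h⟩ => ⟨k, hk, h.symm⟩) Exc (by
      rintro s t hg ⟨k, hk, x, y, z, hx, hy, hz, hne, heq⟩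
      exact ⟨k, x, y, z, hk, hx, hy, hz, hne, heq⟩)
  have hN : 1 ≤ Nat.sqrt X := by rw [Nat.le_sqrt']; omega
  have h2 := hC (Nat.sqrt X) hN
  have h3 : ((Nat.sqrt X : ℕ) : ℝ) ≤ (X : ℝ) ^ (1 / 2 : ℝ) := by
    rw [← Real.sqrt_eq_rpow]
    exact Real.nat_sqrt_le_real_sqrt
  have h4 : ((Nat.sqrt X : ℕ) : ℝ) ^ (2 - 1 / 50 : ℝ) ≤ (X : ℝ) ^ (99 / 100 : ℝ) := by
    calc ((Nat.sqrt X : ℕ) : ℝ) ^ (2 - 1 / 50 : ℝ) ≤ ((X : ℝ) ^ (1 / 2 : ℝ)) ^ (2 - 1 / 50 : ℝ) := by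
          apply Real.rpow_le_rpow (by positivity) h3 (by norm_num)
      _ = _ := by
          rw [← Real.rpow_mul (by positivity)]
          norm_num
  calc _ ≤ (2 : ℝ) * ((box (Nat.sqrt X) (fun s t => Gen s t ∧ Exc s t)).card : ℝ) := by
        exact_mod_cast h1
    _ ≤ 2 * (C * ((Nat.sqrt X : ℕ) : ℝ) ^ (2 - 1 / 50 : ℝ)) := by gcongr
    _ ≤ 2 * (C * (X : ℝ) ^ (99 / 100 : ℝ)) := by gcongr
    _ = _ := by ring

/-- **Primitive triples.** -/
theorem primitive_one : ∃ (C : ℝ) (K : ℕ), ∀ X : ℕ, 2 ≤ X →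
    ((tri X (fun a b c => Primitive a b c ∧ Fails a b c)).card : ℝ) ≤
        C * Real.sqrt X * (Real.log X) ^ K := by
  obtain ⟨C, K, hC0, hC⟩ := asym_one
  refine ⟨2 * C, K, ?_⟩
  intro X hX
  have h1 := tri_le X (fun a b c => Fails a b c)
    (fun a b c h => h.symm) Exc1 (by
      rintro s t hg ⟨x, y, z, hx, hy, hz, hne, heq⟩
      exact ⟨x, y, z, hx, hy, hz, hne, heq⟩)
  have hlogX : 0 ≤ Real.log X := Real.log_nonneg (by exact_mod_cast (by omega : 1 ≤ X))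
  rcases Nat.lt_or_ge (Nat.sqrt X) 2 with hN | hN
  · have h2 : box (Nat.sqrt X) (fun s t => Gen s t ∧ Exc1 s t) = ∅ := by
      apply eq_empty_of_forall_notMem
      intro e he
      rw [mem_box] at he
      have h3 := he.2.1.pos
      have h4 := he.2.1.lt
      omega
    rw [h2, card_empty, mul_zero] at h1
    have h3 : (tri X (fun a b c => Primitive a b c ∧ Fails a b c)).card = 0 := by omega
    rw [h3]
    push_cast
    positivity
  · have h2 := hC (Nat.sqrt X) hN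
    have h3 : ((Nat.sqrt X : ℕ) : ℝ) ≤ Real.sqrt X := Real.nat_sqrt_le_real_sqrt
    have h4 : Real.log ((Nat.sqrt X : ℕ) : ℝ) ≤ Real.log X := by
      apply Real.log_le_log
      · exact_mod_cast (by omega : 0 < Nat.sqrt X)
      · exact_mod_cast Nat.sqrt_le_self X
    have h5 : 0 ≤ Real.log ((Nat.sqrt X : ℕ) : ℝ) :=
      Real.log_nonneg (by exact_mod_cast (by omega : 1 ≤ Nat.sqrt X))
    calc _ ≤ (2 : ℝ) * ((box (Nat.sqrt X) (fun s t => Gen s t ∧ Exc1 s t)).card : ℝ) := by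
          exact_mod_cast h1
      _ ≤ 2 * (C * ((Nat.sqrt X : ℕ) : ℝ) * (Real.log ((Nat.sqrt X : ℕ) : ℝ)) ^ K) := by gcongr
      _ ≤ 2 * (C * Real.sqrt X * (Real.log X) ^ K) := by gcongr
      _ = _ := by ring

end Pool.Agent.R480.Jes
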